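import Mathlib

/-!
# Pyramid games: definitions

Vertices of the pyramids are the pairs `(i, a)` of naturals, `a ≤ i`, with the edges to `(i+1, a)` and `(i+1, a+1)`.
-/

set_option autoImplicit false

namespace Pool.Agent.PyrQ

/-- The answers given so far: `some false` is the edge to `(i+1, a)`, `some true` the edge to `(i+1, a+1)`. -/
abbrev State : Type := ℕ × ℕ → Option Bool

/-- Carole answers the questions `Q` by `ω`; an answer once given stays. -/
def answer (σ : State) (Q : Finset (ℕ × ℕ)) (ω : ℕ × ℕ → Bool) : State :=
  fun v => if v ∈ Q ∧ σ v = none then some (ω v) else σ v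

/-- The position on level `i` of the path from the root with the moves `d` (`true`: to the right): the number of
moves to the right before level `i`. -/
def pos {n : ℕ} (d : Fin n → Bool) (i : ℕ) : ℕ :=
  (Finset.univ.filter fun j : Fin n => (j : ℕ) < i ∧ d j = true).card

/-- The path with the moves `d` leaves every asked vertex along the edge of the answer. -/
def Consistent {n : ℕ} (σ : State) (d : Fin n → Bool) : Prop :=
  ∀ (i : Fin n) (b : Bool), σ ((i : ℕ), pos d i) = some b → d i = b

/-- Paul, with at most `q` questions per round, wins on the `n`-level pyramid in `k` more rounds from the state `σ`: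
then exactly one consistent path from the root to level `n` remains. -/
def PaulWins (n q : ℕ) : ℕ → State → Prop
  | 0, σ => ∃! d : Fin n → Bool, Consistent σ d
  | k + 1, σ => ∃ Q : Finset (ℕ × ℕ), Q.card ≤ q ∧ (∀ v ∈ Q, v.2 ≤ v.1 ∧ v.1 < n) ∧
      ∀ ω : ℕ × ℕ → Bool, PaulWins n q k (answer σ Q ω)

/-- `k_q(n)`: the least number of rounds in which Paul wins from the empty state. -/
noncomputable def rounds (q n : ℕ) : ℕ := sInf {k : ℕ | PaulWins n q k fun _ => none}

end Pool.Agent.PyrQ
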