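import Pool.Agent.PyrQ.Defs

/-!
# Pyramid games: an extra question beats every finite rate
-/

set_option autoImplicit false

open Filter Topology

namespace Pool.Agent.PyrQ

/-! ### The walk along the answers -/

/-- `Reach σ t i a b`: the answers lead from `(i, a)` in `t` steps to `(i + t, b)`. -/
def Reach (σ : State) : ℕ → ℕ → ℕ → ℕ → Prop
  | 0, _, a, b => b = a
  | t + 1, i, a, b => (σ (i, a) = some false ∧ Reach σ t (i + 1) a b) ∨
      (σ (i, a) = some true ∧ Reach σ t (i + 1) (a + 1) b)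

/-- `τ` contains the answers of `σ`. -/
def Ext (σ τ : State) : Prop := ∀ v b, σ v = some b → τ v = some b

theorem Ext.refl (σ : State) : Ext σ σ := fun _ _ h => h

theorem Ext.trans {σ τ υ : State} (h : Ext σ τ) (h' : Ext τ υ) : Ext σ υ := fun v b hv => h' v b (h v b hv)

theorem Ext.ne_none {σ τ : State} (h : Ext σ τ) {v : ℕ × ℕ} (hv : σ v ≠ none) : τ v ≠ none := by
  obtain ⟨b, hb⟩ := Option.ne_none_iff_exists'.1 hv
  rw [h v b hb]
  exact Option.some_ne_none b

theorem ext_answer (σ : State) (Q : Finset (ℕ × ℕ)) (ω : ℕ × ℕ → Bool) : Ext σ (answer σ Q ω) := by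
  intro v b hv
  unfold answer
  rw [if_neg (by rw [hv]; simp), hv]

theorem answer_ne_none (σ : State) (Q : Finset (ℕ × ℕ)) (ω : ℕ × ℕ → Bool) {v : ℕ × ℕ} (hv : v ∈ Q) :
    answer σ Q ω v ≠ none := by
  unfold answer
  by_cases h : σ v = none
  · rw [if_pos ⟨hv, h⟩]
    exact Option.some_ne_none _
  · rw [if_neg fun h' => h h'.2]
    exact h

theorem Reach.mono {σ τ : State} (h : Ext σ τ) : ∀ {t i a b : ℕ}, Reach σ t i a b → Reach τ t i a b
  | 0, _, _, _, hr => hr
  | _ + 1, _, _, _, hr => by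
    rcases hr with ⟨h1, h2⟩ | ⟨h1, h2⟩
    · exact Or.inl ⟨h _ _ h1, Reach.mono h h2⟩
    · exact Or.inr ⟨h _ _ h1, Reach.mono h h2⟩

theorem Reach.bound {σ : State} : ∀ {t i a b : ℕ}, Reach σ t i a b → a ≤ b ∧ b ≤ a + t
  | 0, _, _, _, hr => by
    have hr' : _ = _ := hr
    omega
  | _ + 1, _, _, _, hr => by
    rcases hr with ⟨_, h2⟩ | ⟨_, h2⟩
    · have := Reach.bound h2
      omega
    · have := Reach.bound h2
      omega

theorem Reach.comp {σ : State} : ∀ {s t i a b c : ℕ}, Reach σ s i a c → Reach σ t (i + s) c b → Reach σ (s + t) i a b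
  | 0, t, i, a, b, c, h, h' => by
    have hc : c = a := h
    subst hc
    rwa [zero_add]
  | s + 1, t, i, a, b, c, h, h' => by
    have e : s + 1 + t = (s + t) + 1 := by omega
    rw [e]
    have e' : i + (s + 1) = i + 1 + s := by omega
    rw [e'] at h'
    rcases h with ⟨h1, h2⟩ | ⟨h1, h2⟩
    · exact Or.inl ⟨h1, Reach.comp h2 h'⟩
    · exact Or.inr ⟨h1, Reach.comp h2 h'⟩

theorem reach_one {σ : State} {i a : ℕ} (h : σ (i, a) ≠ none) : ∃ b, Reach σ 1 i a b := by
  obtain ⟨c, hc⟩ := Option.ne_none_iff_exists'.1 h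
  cases c with
  | false => exact ⟨a, Or.inl ⟨hc, rfl⟩⟩
  | true => exact ⟨a + 1, Or.inr ⟨hc, rfl⟩⟩

/-! ### Consistent paths from a vertex -/

/-- consistent paths from `(i, a)` -/
def ConsF {n : ℕ} (σ : State) (i a : ℕ) (d : Fin n → Bool) : Prop :=
  ∀ (j : Fin n) (b : Bool), σ (i + j, a + pos d j) = some b → d j = b

theorem pos_zero {n : ℕ} (d : Fin n → Bool) : pos d 0 = 0 := by
  unfold pos
  simp

theorem pos_cons {n : ℕ} (c : Bool) (d : Fin n → Bool) (j : ℕ) :
    pos (Fin.cons c d : Fin (n + 1) → Bool) (j + 1) = (if c = true then 1 else 0) + pos d j := by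
  unfold pos
  rw [Fin.card_filter_univ_succ]
  simp only [Fin.val_zero, Nat.zero_lt_succ, Fin.cons_zero, true_and, Fin.val_succ, Nat.add_lt_add_iff_right,
    Fin.cons_succ]
  split_ifs <;> omega

theorem consF_cons {n : ℕ} (σ : State) (i a : ℕ) (c : Bool) (d : Fin n → Bool) :
    ConsF σ i a (Fin.cons c d : Fin (n + 1) → Bool) ↔
      (∀ b, σ (i, a) = some b → c = b) ∧ ConsF σ (i + 1) (a + if c = true then 1 else 0) d := by
  unfold ConsF
  rw [Fin.forall_fin_succ]
  have e : ∀ j : Fin n, i + 1 + (j : ℕ) = i + ((j : ℕ) + 1) := fun j => by omega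
  simp only [Fin.val_zero, add_zero, pos_zero, Fin.cons_zero, Fin.val_succ, pos_cons, Fin.cons_succ, e, add_assoc]

theorem exists_consF : ∀ (n : ℕ) (σ : State) (i a : ℕ), ∃ d : Fin n → Bool, ConsF σ i a d
  | 0, σ, i, a => ⟨Fin.elim0, fun j => j.elim0⟩
  | n + 1, σ, i, a => by
    obtain ⟨d, hd⟩ := exists_consF n σ (i + 1) (a + if (σ (i, a)).getD false = true then 1 else 0)
    refine ⟨Fin.cons ((σ (i, a)).getD false) d, (consF_cons σ i a _ d).2 ⟨fun b hb => ?_, hd⟩⟩
    rw [hb]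
    rfl

theorem unique_iff : ∀ (n : ℕ) (σ : State) (i a : ℕ), (∃! d : Fin n → Bool, ConsF σ i a d) ↔ ∃ b, Reach σ n i a b
  | 0, σ, i, a => by
    refine ⟨fun _ => ⟨a, rfl⟩, fun _ => ⟨Fin.elim0, fun j => j.elim0, fun d _ => ?_⟩⟩
    funext j
    exact j.elim0
  | n + 1, σ, i, a => by
    constructor
    · rintro ⟨d, hd, hu⟩
      obtain ⟨c, d', rfl⟩ : ∃ (c : Bool) (d' : Fin n → Bool), d = Fin.cons c d' :=
        ⟨d 0, Fin.tail d, (Fin.cons_self_tail d).symm⟩
      have hd' := (consF_cons σ i a c d').1 hd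
      have h0 : σ (i, a) = some c := by
        cases h : σ (i, a) with
        | none =>
          exfalso
          obtain ⟨e, he⟩ := exists_consF n σ (i + 1) (a + if (!c) = true then 1 else 0)
          have h1 := hu (Fin.cons (!c) e) ((consF_cons σ i a _ e).2 ⟨fun b hb => by rw [h] at hb; simp at hb, he⟩)
          have h2 := congrFun h1 0
          simp at h2
        | some b => rw [hd'.1 b h]
      have h1 : ∃! e : Fin n → Bool, ConsF σ (i + 1) (a + if c = true then 1 else 0) e := by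
        refine ⟨d', hd'.2, fun e he => ?_⟩
        have h2 := hu (Fin.cons c e) ((consF_cons σ i a c e).2 ⟨hd'.1, he⟩)
        exact (Fin.cons_injective2 h2).2
      obtain ⟨b, hb⟩ := (unique_iff n σ _ _).1 h1
      cases c with
      | false => exact ⟨b, Or.inl ⟨h0, hb⟩⟩
      | true => exact ⟨b, Or.inr ⟨h0, hb⟩⟩
    · rintro ⟨b, hb⟩
      obtain ⟨c, hc, h1⟩ : ∃ c : Bool, σ (i, a) = some c ∧ ∃ b, Reach σ n (i + 1) (a + if c = true then 1 else 0) b := by
        rcases hb with ⟨h1, h2⟩ | ⟨h1, h2⟩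
        · exact ⟨false, h1, b, h2⟩
        · exact ⟨true, h1, b, h2⟩
      obtain ⟨d, hd, hu⟩ := (unique_iff n σ _ _).2 h1
      refine ⟨Fin.cons c d, (consF_cons σ i a c d).2 ⟨fun b hb => by rw [hc] at hb; exact Option.some.inj hb, hd⟩, ?_⟩
      intro e he
      obtain ⟨c', e', rfl⟩ : ∃ (c' : Bool) (e' : Fin n → Bool), e = Fin.cons c' e' :=
        ⟨e 0, Fin.tail e, (Fin.cons_self_tail e).symm⟩
      have he' := (consF_cons σ i a c' e').1 he
      have hcc : c' = c := he'.1 c hc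
      subst hcc
      rw [hu e' he'.2]

theorem unique_iff' (n : ℕ) (σ : State) : (∃! d : Fin n → Bool, Consistent σ d) ↔ ∃ b, Reach σ n 0 0 b := by
  rw [← unique_iff n σ 0 0]
  have h : ∀ d : Fin n → Bool, Consistent σ d ↔ ConsF σ 0 0 d := by
    intro d
    unfold Consistent ConsF
    simp only [zero_add]
  simp only [h]

/-! ### The general game -/

/-- Paul reaches the goal `G` in `k` rounds with at most `q` questions per round, all on allowed vertices. -/
def Win (q : ℕ) (Ok : ℕ × ℕ → Prop) (G : State → Prop) : ℕ → State → Prop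
  | 0, σ => G σ
  | k + 1, σ => ∃ Q : Finset (ℕ × ℕ), Q.card ≤ q ∧ (∀ v ∈ Q, Ok v) ∧
      ∀ ω : ℕ × ℕ → Bool, Win q Ok G k (answer σ Q ω)

/-- the non-terminal vertices of the `n`-level pyramid -/
def NT (n : ℕ) (v : ℕ × ℕ) : Prop := v.2 ≤ v.1 ∧ v.1 < n

/-- the goal of the `n`-level pyramid -/
def Goal (n : ℕ) (σ : State) : Prop := ∃ b, Reach σ n 0 0 b

theorem paulWins_iff (n q : ℕ) : ∀ (k : ℕ) (σ : State), PaulWins n q k σ ↔ Win q (NT n) (Goal n) k σ
  | 0, σ => unique_iff' n σ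
  | k + 1, σ => by
    unfold PaulWins Win
    simp only [paulWins_iff n q k]
    rfl

theorem Goal.mono {n : ℕ} {σ τ : State} (h : Ext σ τ) (hg : Goal n σ) : Goal n τ := by
  obtain ⟨b, hb⟩ := hg
  exact ⟨b, hb.mono h⟩

theorem win_mono {q : ℕ} {Ok : ℕ × ℕ → Prop} {G : State → Prop} (hG : ∀ σ τ, Ext σ τ → G σ → G τ) :
    ∀ (k : ℕ) (σ τ : State), Ext σ τ → Win q Ok G k σ → Win q Ok G k τ
  | 0, σ, τ, h, hw => hG σ τ h hw
  | k + 1, σ, τ, h, hw => by
    obtain ⟨Q, h1, h2, h3⟩ := hw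
    refine ⟨Q, h1, h2, fun ω => ?_⟩
    refine win_mono hG k _ _ ?_ (h3 fun v => (τ v).getD (ω v))
    intro v b hv
    unfold answer at hv ⊢
    by_cases hc : v ∈ Q ∧ σ v = none
    · rw [if_pos hc] at hv
      have hv' : (τ v).getD (ω v) = b := Option.some.inj hv
      cases ht : τ v with
      | none =>
        rw [ht] at hv'
        rw [if_pos ⟨hc.1, rfl⟩]
        exact congrArg some hv'
      | some c =>
        rw [ht] at hv'
        rw [if_neg (by simp)]
        exact congrArg some hv'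
    · rw [if_neg hc] at hv
      have ht := h v b hv
      rw [if_neg (by rw [ht]; simp), ht]

/-- the state seen from the vertex `(i, a)` -/
def sh (σ : State) (i a : ℕ) : State := fun v => σ (v.1 + i, v.2 + a)

theorem reach_sh {σ : State} {i a : ℕ} : ∀ {t x y b : ℕ}, Reach (sh σ i a) t x y b → Reach σ t (x + i) (y + a) (b + a)
  | 0, x, y, b, h => by
    have h' : b = y := h
    rw [h']
    rfl
  | t + 1, x, y, b, h => by
    have e : x + i + 1 = x + 1 + i := by omega
    have e' : y + a + 1 = y + 1 + a := by omega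
    rcases h with ⟨h1, h2⟩ | ⟨h1, h2⟩
    · refine Or.inl ⟨h1, ?_⟩
      rw [e]
      exact reach_sh h2
    · refine Or.inr ⟨h1, ?_⟩
      rw [e, e']
      exact reach_sh h2

/-- A finite set splits into a part of size at most `e` and the rest. -/
theorem split_set (R : Finset (ℕ × ℕ)) (e f : ℕ) (h : R.card ≤ e + f) : ∃ E ⊆ R, E.card ≤ e ∧ (R \ E).card ≤ f := by
  obtain ⟨E, hE, hc⟩ := Finset.exists_subset_card_eq (min_le_right e R.card)
  refine ⟨E, hE, by rw [hc]; exact min_le_left _ _, ?_⟩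
  rw [Finset.card_sdiff_of_subset hE, hc]
  omega

/-- ONE BLOCK WITH SIDE QUESTIONS. Paul plays a `q`-strategy of `k` rounds for `n` levels from the vertex `(i, a)` and asks besides the
vertices of `R`, at most `e` per round. -/
theorem block {q e n : ℕ} {Ok : ℕ × ℕ → Prop} {G : State → Prop} {i a : ℕ}
    (hOk : ∀ v, NT n v → Ok (v.1 + i, v.2 + a)) {k' : ℕ} :
    ∀ (k : ℕ) (σ₀ σ : State) (R : Finset (ℕ × ℕ)), R.card ≤ e * k → (∀ v ∈ R, Ok v) → Ext σ₀ (sh σ i a) →
      Win q (NT n) (Goal n) k σ₀ →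
      (∀ τ, Ext σ τ → (∃ b, Reach τ n i a b) → (∀ v ∈ R, τ v ≠ none) → Win (q + e) Ok G k' τ) →
      Win (q + e) Ok G (k + k') σ
  | 0, σ₀, σ, R, hR, _, hσ, hw, hG => by
    rw [zero_add]
    have hR' : R = ∅ := by
      rw [mul_zero] at hR
      exact Finset.card_eq_zero.1 (Nat.le_zero.1 hR)
    obtain ⟨b, hb⟩ := hw
    have h1 := reach_sh (hb.mono hσ)
    rw [zero_add, zero_add] at h1
    refine hG σ (Ext.refl σ) ⟨_, h1⟩ fun v hv => ?_
    rw [hR'] at hv
    exact absurd hv (Finset.notMem_empty v)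
  | k + 1, σ₀, σ, R, hR, hRO, hσ, hw, hG => by
    obtain ⟨Q, h1, h2, h3⟩ := hw
    obtain ⟨E, hE, hE1, hE2⟩ := split_set R e (e * k) (by rw [mul_add, mul_one] at hR; omega)
    have ek : k + 1 + k' = (k + k') + 1 := by omega
    rw [ek]
    let Q' : Finset (ℕ × ℕ) := Q.image (fun v => (v.1 + i, v.2 + a)) ∪ E
    refine ⟨Q', ?_, ?_, fun ω => ?_⟩
    · refine (Finset.card_union_le _ _).trans ?_
      have h4 : (Q.image (fun v : ℕ × ℕ => (v.1 + i, v.2 + a))).card ≤ Q.card := Finset.card_image_le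
      omega
    · intro v hv
      rcases Finset.mem_union.1 hv with hv | hv
      · obtain ⟨w, hw, rfl⟩ := Finset.mem_image.1 hv
        exact hOk w (h2 w hw)
      · exact hRO v (hE hv)
    · refine block hOk k (answer σ₀ Q fun v => (sh σ i a v).getD (ω (v.1 + i, v.2 + a))) (answer σ Q' ω) (R \ E) hE2
        (fun v hv => hRO v (Finset.sdiff_subset hv)) ?_ (h3 _) ?_
      · intro v b hv
        show answer σ Q' ω (v.1 + i, v.2 + a) = some b
        unfold answer at hv ⊢
        by_cases hc : v ∈ Q ∧ σ₀ v = none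
        · rw [if_pos hc] at hv
          have hv' : (σ (v.1 + i, v.2 + a)).getD (ω (v.1 + i, v.2 + a)) = b := Option.some.inj hv
          have hm : (v.1 + i, v.2 + a) ∈ Q' := Finset.mem_union_left _ (Finset.mem_image.2 ⟨v, hc.1, rfl⟩)
          cases ht : σ (v.1 + i, v.2 + a) with
          | none =>
            rw [ht] at hv'
            rw [if_pos ⟨hm, rfl⟩]
            exact congrArg some hv'
          | some c =>
            rw [ht] at hv'
            rw [if_neg (by simp)]
            exact congrArg some hv'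
        · rw [if_neg hc] at hv
          have ht : σ (v.1 + i, v.2 + a) = some b := hσ v b hv
          rw [if_neg (by rw [ht]; simp), ht]
      · intro τ hτ hr hv
        refine hG τ ((ext_answer σ Q' ω).trans hτ) hr fun v hvR => ?_
        by_cases hvE : v ∈ E
        · exact hτ.ne_none (answer_ne_none σ Q' ω (Finset.mem_union_right _ hvE))
        · exact hv v (Finset.mem_sdiff.2 ⟨hvR, hvE⟩)

/-- SEVERAL BLOCKS WITH SIDE QUESTIONS on the pyramid with `N` levels. -/
theorem blocks {q e n k N : ℕ} (hw : Win q (NT n) (Goal n) k fun _ => none) {G : State → Prop} {k' : ℕ} :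
    ∀ (t i a : ℕ) (σ : State) (R : Finset (ℕ × ℕ)), R.card ≤ e * (t * k) → (∀ v ∈ R, NT N v) → a ≤ i → i + t * n ≤ N →
      (∀ τ b, Ext σ τ → Reach τ (t * n) i a b → (∀ v ∈ R, τ v ≠ none) → Win (q + e) (NT N) G k' τ) →
      Win (q + e) (NT N) G (t * k + k') σ
  | 0, i, a, σ, R, hR, _, _, _, hG => by
    rw [zero_mul, zero_add]
    have hR' : R = ∅ := by
      rw [zero_mul, mul_zero] at hR
      exact Finset.card_eq_zero.1 (Nat.le_zero.1 hR)
    refine hG σ a (Ext.refl σ) ?_ fun v hv => ?_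
    · rw [zero_mul]
      rfl
    · rw [hR'] at hv
      exact absurd hv (Finset.notMem_empty v)
  | t + 1, i, a, σ, R, hR, hRO, hai, hiN, hG => by
    obtain ⟨E, hE, hE1, hE2⟩ := split_set R (e * k) (e * (t * k)) (by
      have h1 : e * ((t + 1) * k) = e * k + e * (t * k) := by ring
      omega)
    have ek : (t + 1) * k + k' = k + (t * k + k') := by ring
    rw [ek]
    have eN : (t + 1) * n = n + t * n := by ring
    rw [eN] at hiN
    refine block (i := i) (a := a) (fun v hv => ?_) k (fun _ => none) σ E hE1 (fun v hv => hRO v (hE hv)) (fun v b hv => by simp at hv) hw ?_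
    · unfold NT at hv ⊢
      exact ⟨by simp only; omega, by simp only; omega⟩
    · rintro τ hτ ⟨b, hb⟩ hv
      have hbb := hb.bound
      refine blocks hw t (i + n) b τ (R \ E) hE2 (fun v hv => hRO v (Finset.sdiff_subset hv)) (by omega) (by omega) ?_
      intro υ c hυ hc hv2
      refine hG υ c (hτ.trans hυ) ?_ fun v hvR => ?_
      · rw [eN]
        exact (hb.mono hυ).comp hc
      · by_cases hvE : v ∈ E
        · exact hυ.ne_none (hv v hvE)
        · exact hv2 v (Finset.mem_sdiff.2 ⟨hvR, hvE⟩)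

/-! ### The carpet row -/

/-- The vertices of the row `m` in the window `[a, a + w]` with position `r` modulo `M`. -/
theorem card_row (m a w M r : ℕ) (hM : 0 < M) :
    ∃ R : Finset (ℕ × ℕ), R.card ≤ w / M + 2 ∧ (∀ v ∈ R, v.1 = m ∧ a ≤ v.2 ∧ v.2 ≤ a + w) ∧
      ∀ c, a ≤ c → c ≤ a + w → c % M = r → (m, c) ∈ R := by
  classical
  refine ⟨((Finset.Icc (a / M) ((a + w) / M)).image fun x => (m, x * M + r)).filter fun v => a ≤ v.2 ∧ v.2 ≤ a + w,
    ?_, ?_, ?_⟩
  · refine (Finset.card_filter_le _ _).trans (Finset.card_image_le.trans ?_)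
    rw [Nat.card_Icc, Nat.add_div hM]
    generalize a / M = x
    generalize w / M = y
    split_ifs <;> omega
  · intro v hv
    obtain ⟨h1, h2⟩ := Finset.mem_filter.1 hv
    obtain ⟨x, _, rfl⟩ := Finset.mem_image.1 h1
    exact ⟨rfl, h2⟩
  · intro c h1 h2 h3
    refine Finset.mem_filter.2 ⟨Finset.mem_image.2 ⟨c / M, Finset.mem_Icc.2 ⟨Nat.div_le_div_right h1,
      Nat.div_le_div_right h2⟩, ?_⟩, h1, h2⟩
    rw [← h3, Nat.div_add_mod' c M]

/-- THE CARPET. `j` blocks are left, the answers lead to `(i, a)`, `i + j n = m`; the vertices of the row `m` in the reachable window of all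
classes modulo `M` below `M - s` are answered. -/
theorem carpet {q e n k m s₀ : ℕ} (hw : Win q (NT n) (Goal n) k fun _ => none) (hk : 1 ≤ k) (he : 1 ≤ e) (hs : 1 ≤ s₀)
    (hn : n ≤ q * k) (hq : q ≤ s₀ * e) :
    ∀ (s j i a : ℕ) (σ : State), 4 * 2 ^ s ≤ j + 4 → s ≤ 2 * s₀ → i + j * n = m → a ≤ i → Reach σ i 0 0 a →
      (∀ c, a ≤ c → c ≤ a + j * n → c % (2 * s₀) + s < 2 * s₀ → σ (m, c) ≠ none) →
      Win (q + e) (NT (m + 1)) (Goal (m + 1)) (j * k) σ
  | 0, j, i, a, σ, _, _, hm, hai, hr, hc => by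
    have h0 : j * k = j * k + 0 := rfl
    rw [h0]
    refine blocks hw j i a σ ∅ (by simp) (by simp) hai (by omega) ?_
    intro τ b hτ hb _
    have hbb := hb.bound
    have h1 : τ (m, b) ≠ none := hτ.ne_none (hc b hbb.1 hbb.2 (by
      rw [add_zero]
      exact Nat.mod_lt _ (by omega)))
    obtain ⟨c, h2⟩ := reach_one h1
    have h3 : Reach τ m 0 0 b := by
      rw [← hm]
      exact (hr.mono hτ).comp (by rwa [zero_add])
    exact ⟨c, h3.comp (by rwa [zero_add])⟩
  | s + 1, j, i, a, σ, hj, hs2, hm, hai, hr, hc => by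
    have h2s : 1 ≤ 2 ^ s := Nat.one_le_two_pow
    have h2s' : 2 ^ (s + 1) = 2 * 2 ^ s := by rw [pow_succ, mul_comm]
    rw [h2s'] at hj
    have hj4 : 4 ≤ j := by omega
    obtain ⟨t, ht⟩ : ∃ t, t = (j + 1) / 2 + 2 := ⟨_, rfl⟩
    have htj : t ≤ j := by omega
    obtain ⟨j', hj'⟩ := Nat.exists_eq_add_of_le htj
    obtain ⟨R, hR1, hR2, hR3⟩ := card_row m a (j * n) (2 * s₀) (2 * s₀ - (s + 1)) (by omega)
    have hcost : j * n / (2 * s₀) + 2 ≤ e * (t * k) := by
      have h1 : j * n ≤ s₀ * (j * (e * k)) := by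
        calc j * n ≤ j * (q * k) := Nat.mul_le_mul_left j hn
          _ ≤ j * (s₀ * e * k) := Nat.mul_le_mul_left j (Nat.mul_le_mul_right k hq)
          _ = s₀ * (j * (e * k)) := by ring
      have h2 : j * n / (2 * s₀) ≤ j * (e * k) / 2 := by
        rw [mul_comm 2 s₀]
        calc j * n / (s₀ * 2) ≤ s₀ * (j * (e * k)) / (s₀ * 2) := Nat.div_le_div_right h1
          _ = j * (e * k) / 2 := Nat.mul_div_mul_left _ _ (by omega)
      have h3 : j * (e * k) ≤ 2 * ((j + 1) / 2 * (e * k)) := by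
        calc j * (e * k) ≤ 2 * ((j + 1) / 2) * (e * k) := Nat.mul_le_mul_right _ (by omega)
          _ = 2 * ((j + 1) / 2 * (e * k)) := by ring
      have h4 : 1 ≤ e * k := Nat.mul_le_mul he hk
      have h5 : e * (t * k) = (j + 1) / 2 * (e * k) + 2 * (e * k) := by
        rw [ht]
        ring
      omega
    have hjk : j * k = t * k + j' * k := by
      rw [hj']
      ring
    have hjn : j * n = t * n + j' * n := by
      rw [hj']
      ring
    rw [hjk]
    refine blocks hw t i a σ R (hR1.trans hcost) (fun v hv => ?_) hai (by omega) ?_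
    · obtain ⟨h1, h2, h3⟩ := hR2 v hv
      unfold NT
      omega
    · intro τ b hτ hb hv
      have hbb := hb.bound
      refine carpet hw hk he hs hn hq s j' (i + t * n) b τ (by omega) (by omega) (by omega) (by omega)
        ((hr.mono hτ).comp (by rwa [zero_add])) ?_
      intro c h1 h2 h3
      by_cases h4 : c % (2 * s₀) + (s + 1) < 2 * s₀
      · exact hτ.ne_none (hc c (by omega) (by omega) h4)
      · exact hv _ (hR3 c (by omega) (by omega) (by omega))

/-- `B = 4 (4 ^ s - 1)` blocks give one level more. -/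
theorem extra {q e n k s : ℕ} (hw : PaulWins n q k fun _ => none) (hk : 1 ≤ k) (he : 1 ≤ e) (hs : 1 ≤ s)
    (hn : n ≤ q * k) (hq : q ≤ s * e) :
    PaulWins ((4 ^ (s + 1) - 4) * n + 1) (q + e) ((4 ^ (s + 1) - 4) * k) fun _ => none := by
  rw [paulWins_iff] at hw ⊢
  have h4 : 4 ^ (s + 1) = 4 * 2 ^ (2 * s) := by
    rw [pow_succ, pow_mul, mul_comm]
    norm_num
  have h5 : 1 ≤ 2 ^ (2 * s) := Nat.one_le_two_pow
  refine carpet (m := (4 ^ (s + 1) - 4) * n) hw hk he hs hn hq (2 * s) (4 ^ (s + 1) - 4) 0 0 _ (by omega) le_rfl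
    (by rw [zero_add]) le_rfl rfl ?_
  intro c _ _ h
  exact absurd h (by omega)

/-! ### The limits -/

/-- Paul can follow the path, one question per round. -/
theorem win_follow {q n : ℕ} (hq : 1 ≤ q) :
    ∀ (t i a : ℕ) (σ : State), i + t = n → a ≤ i → Reach σ i 0 0 a → Win q (NT n) (Goal n) t σ
  | 0, i, a, σ, h, _, hr => by
    have h' : i = n := h
    exact ⟨a, by rw [← h']; exact hr⟩
  | t + 1, i, a, σ, h, hai, hr => by
    refine ⟨{(i, a)}, by simpa using hq, ?_, fun ω => ?_⟩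
    · intro v hv
      rw [Finset.mem_singleton] at hv
      subst hv
      exact ⟨hai, by simp only; omega⟩
    · obtain ⟨b, hb⟩ := reach_one (answer_ne_none σ {(i, a)} ω (Finset.mem_singleton_self (i, a)))
      have hbb := hb.bound
      refine win_follow hq t (i + 1) b _ (by omega) (by omega) ?_
      exact (hr.mono (ext_answer σ {(i, a)} ω)).comp (by rwa [zero_add])

theorem wins_nonempty {q : ℕ} (hq : 1 ≤ q) (n : ℕ) : PaulWins n q n fun _ => none := by
  rw [paulWins_iff]
  exact win_follow hq n 0 0 _ (by omega) le_rfl rfl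

theorem wins_rounds {q : ℕ} (hq : 1 ≤ q) (n : ℕ) : PaulWins n q (rounds q n) fun _ => none :=
  Nat.sInf_mem (s := {k : ℕ | PaulWins n q k fun _ => none}) ⟨n, wins_nonempty hq n⟩

theorem rounds_le {q n k : ℕ} (h : PaulWins n q k fun _ => none) : rounds q n ≤ k := Nat.sInf_le h

/-- the path of the answers has its vertices among the answered ones -/
theorem reach_card {σ : State} {A : Finset (ℕ × ℕ)} (hA : ∀ v, σ v ≠ none → v ∈ A) :
    ∀ {t i a b : ℕ}, Reach σ t i a b → t ≤ (A.filter fun v => i ≤ v.1).card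
  | 0, _, _, _, _ => Nat.zero_le _
  | t + 1, i, a, b, h => by
    have h1 : (i, a) ∈ A := by
      refine hA _ ?_
      rcases h with ⟨h1, _⟩ | ⟨h1, _⟩ <;> (rw [h1]; simp)
    have h2 : t ≤ (A.filter fun v => i + 1 ≤ v.1).card := by
      rcases h with ⟨_, h2⟩ | ⟨_, h2⟩
      · exact reach_card hA h2
      · exact reach_card hA h2
    have h3 : insert (i, a) (A.filter fun v => i + 1 ≤ v.1) ⊆ A.filter fun v => i ≤ v.1 := by
      intro v hv
      rcases Finset.mem_insert.1 hv with rfl | hv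
      · exact Finset.mem_filter.2 ⟨h1, le_rfl⟩
      · obtain ⟨h4, h5⟩ := Finset.mem_filter.1 hv
        exact Finset.mem_filter.2 ⟨h4, by omega⟩
    have h4 := Finset.card_le_card h3
    rw [Finset.card_insert_of_notMem (by simp)] at h4
    omega

theorem le_of_win {q n : ℕ} : ∀ (k : ℕ) (σ : State) (A : Finset (ℕ × ℕ)), (∀ v, σ v ≠ none → v ∈ A) →
    Win q (NT n) (Goal n) k σ → n ≤ A.card + q * k
  | 0, σ, A, hA, ⟨_, hb⟩ => (reach_card hA hb).trans ((Finset.card_filter_le _ _).trans (Nat.le_add_right _ _))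
  | k + 1, σ, A, hA, hw => by
    obtain ⟨Q, h1, _, h3⟩ := hw
    have h4 := le_of_win k (answer σ Q fun _ => false) (A ∪ Q) (fun v hv => ?_) (h3 _)
    · have h5 := Finset.card_union_le A Q
      have h6 : q * (k + 1) = q * k + q := by ring
      omega
    · unfold answer at hv
      by_cases h : v ∈ Q ∧ σ v = none
      · exact Finset.mem_union_right _ h.1
      · rw [if_neg h] at hv
        exact Finset.mem_union_left _ (hA v hv)

theorem le_rounds {q : ℕ} (hq : 1 ≤ q) (n : ℕ) : n ≤ q * rounds q n := by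
  have h1 := wins_rounds hq n
  rw [paulWins_iff] at h1
  have h := le_of_win (rounds q n) _ ∅ (by simp) h1
  simpa using h

/-- `k_q(m + n) ≤ k_q(m) + k_q(n)` -/
theorem rounds_add {q : ℕ} (hq : 1 ≤ q) (m n : ℕ) : rounds q (m + n) ≤ rounds q m + rounds q n := by
  refine rounds_le ?_
  have h1 := wins_rounds hq m
  have h2 := wins_rounds hq n
  rw [paulWins_iff] at h1 h2 ⊢
  have h3 := block (q := q) (e := 0) (n := m) (Ok := NT (m + n)) (G := Goal (m + n)) (i := 0) (a := 0)
    (fun v hv => ⟨hv.1, lt_of_lt_of_le hv.2 (Nat.le_add_right m n)⟩) (k' := rounds q n) (rounds q m) (fun _ => none)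
    (fun _ => none) ∅ (by simp) (by simp) (fun v b hv => by simp at hv) h1 ?_
  · exact h3
  · rintro τ _ ⟨b, hb⟩ _
    have hbb := hb.bound
    have h4 := block (q := q) (e := 0) (n := n) (Ok := NT (m + n)) (G := Goal (m + n)) (i := m) (a := b)
      (fun v hv => by unfold NT at hv ⊢; simp only; omega) (k' := 0) (rounds q n) (fun _ => none)
      τ ∅ (by simp) (by simp) (fun v b hv => by simp at hv) h2 ?_
    · exact h4
    · rintro υ hυ ⟨c, hc⟩ _
      exact ⟨c, (hb.mono hυ).comp (by rwa [zero_add])⟩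

theorem exists_rate {q : ℕ} (hq : 1 ≤ q) : ∃ L : ℝ, 0 < L ∧
    Tendsto (fun n : ℕ => (n : ℝ) / rounds q n) atTop (𝓝 L) ∧ ∀ n : ℕ, 1 ≤ n → (n : ℝ) / rounds q n ≤ L := by
  have hq0 : (0 : ℝ) < q := by exact_mod_cast hq
  have hsub : Subadditive fun n : ℕ => (rounds q n : ℝ) := fun m n => by
    show (rounds q (m + n) : ℝ) ≤ rounds q m + rounds q n
    exact_mod_cast rounds_add hq m n
  have hbdd : BddBelow (Set.range fun n : ℕ => (rounds q n : ℝ) / n) := by
    refine ⟨0, ?_⟩
    rintro _ ⟨n, rfl⟩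
    positivity
  have hlow : ∀ n : ℕ, 1 ≤ n → (1 : ℝ) / q ≤ (rounds q n : ℝ) / n := by
    intro n hn
    have hn0 : (0 : ℝ) < n := by exact_mod_cast hn
    rw [div_le_div_iff₀ hq0 hn0, one_mul, mul_comm]
    exact_mod_cast le_rounds hq n
  have hlim := hsub.tendsto_lim hbdd
  have hpos : (1 : ℝ) / q ≤ hsub.lim := ge_of_tendsto hlim (Filter.eventually_atTop.2 ⟨1, hlow⟩)
  have hpos' : 0 < hsub.lim := lt_of_lt_of_le (by positivity) hpos
  refine ⟨hsub.lim⁻¹, inv_pos.2 hpos', ?_, fun n hn => ?_⟩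
  · refine (hlim.inv₀ hpos'.ne').congr fun n => ?_
    rw [inv_div]
  · have hn0 : (0 : ℝ) < n := by exact_mod_cast hn
    have h1 : hsub.lim ≤ (rounds q n : ℝ) / n := hsub.lim_le_div hbdd (by omega)
    rw [← inv_div]
    exact inv_anti₀ hpos' h1

/-- Paul has at most `q` questions per round; `L` is the asymptotic rate with `q`, `L'` the one with `q + r` questions. -/
theorem main (q r : ℕ) (hq : 1 ≤ q) (hr : 1 ≤ r) : ∃ L L' : ℝ,
    Tendsto (fun n : ℕ => (n : ℝ) / rounds q n) atTop (𝓝 L) ∧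
    Tendsto (fun n : ℕ => (n : ℝ) / rounds (q + r) n) atTop (𝓝 L') ∧
    (∀ n s : ℕ, 1 ≤ n → q ≤ s * r → ((n : ℝ) + (1 / 4) ^ (s + 1)) / rounds q n ≤ L') ∧
    ((∃ n : ℕ, 1 ≤ n ∧ (n : ℝ) / rounds q n = L) → L < L') := by
  obtain ⟨L, hL0, hL1, hL2⟩ := exists_rate hq
  obtain ⟨L', hL0', hL1', hL2'⟩ := exists_rate (q := q + r) (by omega)
  have key : ∀ n s : ℕ, 1 ≤ n → q ≤ s * r → ((n : ℝ) + (1 / 4) ^ (s + 1)) / rounds q n ≤ L' := by
    intro n s hn hs
    have hs1 : 1 ≤ s := by
      by_contra h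
      have h0 : s = 0 := by omega
      rw [h0, zero_mul] at hs
      omega
    have hk : 1 ≤ rounds q n := by
      by_contra h
      have h0 : rounds q n = 0 := by omega
      have h1 := le_rounds hq n
      rw [h0, mul_zero] at h1
      omega
    have h1 := extra (wins_rounds hq n) hk hr hs1 (le_rounds hq n) hs
    have h4 : 4 < 4 ^ (s + 1) := by
      calc 4 < 4 ^ 2 := by norm_num
        _ ≤ 4 ^ (s + 1) := Nat.pow_le_pow_right (by norm_num) (by omega)
    obtain ⟨B, hB⟩ : ∃ B, B = 4 ^ (s + 1) - 4 := ⟨_, rfl⟩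
    rw [← hB] at h1
    have hB0 : 0 < B := by omega
    have hB1 : B ≤ 4 ^ (s + 1) := by omega
    have h2 := rounds_le h1
    have h3 := hL2' (B * n + 1) (by omega)
    have hB0' : (0 : ℝ) < B := by exact_mod_cast hB0
    have hk' : (0 : ℝ) < rounds q n := by exact_mod_cast hk
    have h5 : 0 < rounds (q + r) (B * n + 1) := by
      by_contra h
      have h0 : rounds (q + r) (B * n + 1) = 0 := by omega
      have h1 := le_rounds (q := q + r) (by omega) (B * n + 1)
      rw [h0, mul_zero] at h1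
      omega
    have h5' : (0 : ℝ) < rounds (q + r) (B * n + 1) := by exact_mod_cast h5
    have h6 : ((B * n + 1 : ℕ) : ℝ) / ((B : ℝ) * rounds q n) ≤ L' := by
      refine le_trans ?_ h3
      refine div_le_div_of_nonneg_left (by positivity) h5' ?_
      exact_mod_cast h2
    refine le_trans ?_ h6
    have h7 : ((1 : ℝ) / 4) ^ (s + 1) ≤ 1 / B := by
      rw [div_pow, one_pow]
      refine one_div_le_one_div_of_le hB0' ?_
      exact_mod_cast hB1
    rw [div_le_div_iff₀ hk' (by positivity)]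
    have h8 : ((n : ℝ) + (1 / 4) ^ (s + 1)) * B ≤ B * n + 1 := by
      have h9 : ((1 : ℝ) / 4) ^ (s + 1) * B ≤ 1 := by
        calc ((1 : ℝ) / 4) ^ (s + 1) * B ≤ 1 / B * B := mul_le_mul_of_nonneg_right h7 hB0'.le
          _ = 1 := by field_simp
      linarith
    push_cast
    calc ((n : ℝ) + (1 / 4) ^ (s + 1)) * (B * rounds q n) = (((n : ℝ) + (1 / 4) ^ (s + 1)) * B) * rounds q n := by ring
      _ ≤ (B * n + 1) * rounds q n := mul_le_mul_of_nonneg_right h8 hk'.le
  refine ⟨L, L', hL1, hL1', key, ?_⟩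
  rintro ⟨n, hn, h⟩
  have h1 := key n q hn (Nat.le_mul_of_pos_right q hr)
  have hk : 0 < rounds q n := by
    by_contra h
    have h0 : rounds q n = 0 := by omega
    have h1 := le_rounds hq n
    rw [h0, mul_zero] at h1
    omega
  have hk' : (0 : ℝ) < rounds q n := by exact_mod_cast hk
  rw [← h]
  refine lt_of_lt_of_le ?_ h1
  refine div_lt_div_of_pos_right ?_ hk'
  have : (0 : ℝ) < (1 / 4) ^ (q + 1) := by positivity
  linarith

end Pool.Agent.PyrQ
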