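import Pool.Agent.PyrQ.Local

/-!
# Pyramid games: vertices asked far ahead are worth little

A strategy for `n` levels whose final path meets at most `h` vertices asked `H` or more levels ahead gives a local strategy for
`n - (H - 1) h` levels with `h` more rounds.
-/

set_option autoImplicit false

namespace Pool.Agent.PyrQ

/-- The number of levels `x < n` on which the path of the answers from the root has its vertex in `F`. -/
noncomputable def hits (σ : State) (F : Finset (ℕ × ℕ)) (n : ℕ) : ℕ :=
  Set.ncard {x : ℕ | x < n ∧ ∃ a, Reach σ x 0 0 a ∧ (x, a) ∈ F}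

/-- Paul, with at most `q` questions per round, wins the first `n` levels in `k` more rounds from the state `σ`, so that the path from the
root to level `n` has at most `h` vertices in the set which consists of `F` and of all his further questions that look `H` or more levels
ahead (these questions, and possibly more, form the sets `F'`). -/
def HitWins (H q n h : ℕ) : ℕ → Finset (ℕ × ℕ) → State → Prop
  | 0, F, σ => (∃! d : Fin n → Bool, Consistent σ d) ∧ hits σ F n ≤ h
  | k + 1, F, σ => ∃ E F' : Finset (ℕ × ℕ), (E ∪ F').card ≤ q ∧ (∀ v ∈ E ∪ F', v.2 ≤ v.1) ∧ (∀ v ∈ E, Near H σ v) ∧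
      ∀ ω : ℕ × ℕ → Bool, HitWins H q n h k (F ∪ F') (answer σ (E ∪ F') ω)

theorem hits_fin (σ : State) (F : Finset (ℕ × ℕ)) (n : ℕ) : {x : ℕ | x < n ∧ ∃ a, Reach σ x 0 0 a ∧ (x, a) ∈ F}.Finite :=
  (Set.finite_lt_nat n).subset fun _ hx => hx.1

theorem hits_mono {σ τ : State} {F F' : Finset (ℕ × ℕ)} {i i' : ℕ} (h : Ext σ τ) (hF : F ⊆ F') (hi : i ≤ i') :
    hits σ F i ≤ hits τ F' i' := by
  refine Set.ncard_le_ncard ?_ (hits_fin τ F' i')
  rintro x ⟨h1, a, h2, h3⟩
  exact ⟨lt_of_lt_of_le h1 hi, a, h2.mono h, hF h3⟩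

theorem hits_succ {σ : State} {F : Finset (ℕ × ℕ)} {i a : ℕ} (h : Reach σ i 0 0 a) (hF : (i, a) ∈ F) :
    hits σ F i + 1 ≤ hits σ F (i + 1) := by
  have h1 : i ∉ {x : ℕ | x < i ∧ ∃ a, Reach σ x 0 0 a ∧ (x, a) ∈ F} := fun h => lt_irrefl i h.1
  unfold hits
  rw [← Set.ncard_insert_of_notMem h1 (hits_fin σ F i)]
  refine Set.ncard_le_ncard ?_ (hits_fin σ F (i + 1))
  intro x hx
  rcases Set.mem_insert_iff.1 hx with rfl | ⟨h2, h3⟩
  · exact ⟨Nat.lt_succ_self _, a, h, hF⟩
  · exact ⟨Nat.lt_succ_of_lt h2, h3⟩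

theorem hits_of_goal {σ τ : State} {F : Finset (ℕ × ℕ)} {n : ℕ} (h : Ext σ τ) (hg : Goal n σ) : hits τ F n ≤ hits σ F n := by
  refine Set.ncard_le_ncard ?_ (hits_fin σ F n)
  rintro x ⟨h1, a, h2, h3⟩
  obtain ⟨a', h4⟩ := Goal.of_le h1.le hg
  have h5 : a' = a := (h4.mono h).unique h2
  subst h5
  exact ⟨h1, a', h4, h3⟩

theorem hit_goal {H q n h : ℕ} {F : Finset (ℕ × ℕ)} {σ : State} (hw : HitWins H q n h 0 F σ) : Goal n σ :=
  (unique_iff' n σ).1 hw.1

theorem hit_le {H q n h : ℕ} : ∀ (k : ℕ) (F : Finset (ℕ × ℕ)) (σ : State), HitWins H q n h k F σ → hits σ F n ≤ h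
  | 0, _, _, hw => hw.2
  | k + 1, F, σ, hw => by
    obtain ⟨E, F', _, _, _, h4⟩ := hw
    exact (hits_mono (ext_answer σ (E ∪ F') fun _ => false) Finset.subset_union_left le_rfl).trans
      (hit_le k (F ∪ F') _ (h4 fun _ => false))

/-- More answers do not hurt. -/
theorem hit_mono {H q n h : ℕ} : ∀ (k : ℕ) (F : Finset (ℕ × ℕ)) (σ τ : State), Ext σ τ → HitWins H q n h k F σ →
    HitWins H q n h k F τ
  | 0, F, σ, τ, h, hw => ⟨(unique_iff' n τ).2 ((hit_goal hw).mono h), (hits_of_goal h (hit_goal hw)).trans hw.2⟩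
  | k + 1, F, σ, τ, h, hw => by
    obtain ⟨E, F', h1, h3, h4, h5⟩ := hw
    refine ⟨E, F', h1, h3, fun v hv => (h4 v hv).mono h, fun ω => ?_⟩
    refine hit_mono k (F ∪ F') _ _ ?_ (h5 fun v => (τ v).getD (ω v))
    intro v b hv
    unfold answer at hv ⊢
    by_cases hc : v ∈ E ∪ F' ∧ σ v = none
    · rw [if_pos hc] at hv
      have hv' : (τ v).getD (ω v) = b := Option.some.inj hv
      cases ht : τ v with
      | none =>
        rw [ht] at hv'
        rw [if_pos ⟨hc.1, rfl⟩]
        exact congrArg some hv'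
      | some c =>
        rw [ht] at hv'
        rw [if_neg (by simp)]
        exact congrArg some hv'
    · rw [if_neg hc] at hv
      rw [if_neg (by rw [h v b hv]; simp)]
      exact h v b hv

/-- An unasked current vertex is the last one: `Reach.split` at level `i`, `Reach.unique`; a step from `(i, a)` needs its answer. -/
theorem max_of_none {σ : State} {i a i' a' : ℕ} (h : Reach σ i 0 0 a) (h0 : σ (i, a) = none) (h' : Reach σ i' 0 0 a') : i' ≤ i := by
  by_contra hlt
  push Not at hlt
  obtain ⟨t, rfl⟩ := Nat.exists_eq_add_of_lt hlt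
  rw [add_assoc] at h'
  obtain ⟨c, h1, h2⟩ := h'.split
  rw [zero_add] at h2
  have hc : c = a := h1.unique h
  subst hc
  rcases h2 with ⟨h3, -⟩ | ⟨h3, -⟩
  · rw [h0] at h3
    exact absurd h3 (by simp)
  · rw [h0] at h3
    exact absurd h3 (by simp)

/-- Paul has won already: he asks nothing (`Q = ∅`, `Goal.mono`, `ext_answer`). -/
theorem lw_goal {H q m : ℕ} : ∀ (k : ℕ) (τ : State), Goal m τ → LocalWins H q m k τ := by
  intro k
  induction k with
  | zero => exact fun τ h => lw_zero.2 h
  | succ k ih =>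
    intro τ h
    exact ⟨∅, by simp, by simp, fun ω => ih _ (h.mono (ext_answer τ ∅ ω))⟩

/-- FOLLOW BOTH PATHS as long as the answers agree. Induction on `x`: if `σ (i, a) = none` or `τ (r, c) ≠ σ (i, a)` take `t = 0`; otherwise
(`i < B`) go on from `(i + 1, a + δ)`, `(r + 1, c + δ)`. -/
theorem advance {σ τ : State} {B : ℕ} (hB : ∀ v, σ v ≠ none → v.1 < B) : ∀ (x i a r c : ℕ), B ≤ i + x →
    ∃ t a' c', Reach σ t i a a' ∧ Reach τ t r c c' ∧ a' + c = c' + a ∧ (σ (i + t, a') = none ∨ τ (r + t, c') ≠ σ (i + t, a')) := by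
  intro x
  induction x with
  | zero =>
    intro i a r c h
    refine ⟨0, a, c, rfl, rfl, by omega, Or.inl ?_⟩
    by_contra hn
    have h1 := hB (i + 0, a) hn
    have h2 : i + 0 < B := h1
    omega
  | succ x ih =>
    intro i a r c h
    by_cases h0 : σ (i, a) = none ∨ τ (r, c) ≠ σ (i, a)
    · exact ⟨0, a, c, rfl, rfl, by omega, h0⟩
    · rw [not_or, not_not] at h0
      obtain ⟨h1, h2⟩ := h0
      obtain ⟨b, hb⟩ := Option.ne_none_iff_exists'.1 h1
      rw [hb] at h2
      cases b with
      | false =>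
        obtain ⟨t, a', c', k1, k2, k3, k4⟩ := ih (i + 1) a (r + 1) c (by omega)
        refine ⟨t + 1, a', c', Or.inl ⟨hb, k1⟩, Or.inl ⟨h2, k2⟩, k3, ?_⟩
        have e1 : i + (t + 1) = i + 1 + t := by omega
        have e2 : r + (t + 1) = r + 1 + t := by omega
        rw [e1, e2]
        exact k4
      | true =>
        obtain ⟨t, a', c', k1, k2, k3, k4⟩ := ih (i + 1) (a + 1) (r + 1) (c + 1) (by omega)
        refine ⟨t + 1, a', c', Or.inr ⟨hb, k1⟩, Or.inr ⟨h2, k2⟩, by omega, ?_⟩
        have e1 : i + (t + 1) = i + 1 + t := by omega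
        have e2 : r + (t + 1) = r + 1 + t := by omega
        rw [e1, e2]
        exact k4

/-- ONE ROUND. `(i, a)` is the current vertex of the play `σ` with far questions, `(r, c)` the one of the local play `τ`. The local
questions are `Q = (E.filter fun v => i ≤ v.1 ∧ a ≤ v.2 ∧ v.2 - a ≤ v.1 - i).image fun v => (v.1 - i + r, v.2 - a + c)`; given the answers
`ω` use `ω' v = (answer τ Q ω (v.1 - i + r, v.2 - a + c)).getD false` for `σ`. Near: `v ∈ E` has `v.1 < i + H` by `max_of_none`. -/
theorem round {H q i a r c : ℕ} {σ τ : State} {E F F' : Finset (ℕ × ℕ)} (hE : E.card ≤ q) (h1 : Reach σ i 0 0 a)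
    (h2 : Reach τ r 0 0 c) (h0 : σ (i, a) = none)
    (hs : ∀ (v : ℕ × ℕ) (b : Bool), v.2 ≤ v.1 → σ (v.1 + i, v.2 + a) = some b →
      τ (v.1 + r, v.2 + c) = some b ∨ (v.1 + i, v.2 + a) ∈ F)
    (hN : ∀ v ∈ E, Near H σ v) :
    ∃ Q : Finset (ℕ × ℕ), Q.card ≤ q ∧ (∀ v ∈ Q, v.2 ≤ v.1 ∧ Near H τ v) ∧ ∀ ω : ℕ × ℕ → Bool, ∃ ω' : ℕ × ℕ → Bool,
      ∀ (v : ℕ × ℕ) (b : Bool), v.2 ≤ v.1 → answer σ (E ∪ F') ω' (v.1 + i, v.2 + a) = some b →
        answer τ Q ω (v.1 + r, v.2 + c) = some b ∨ (v.1 + i, v.2 + a) ∈ F ∪ F' := by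
  have hc := h2.bound
  obtain ⟨Q, hQ⟩ : ∃ Q : Finset (ℕ × ℕ), Q = (E.filter fun v => i ≤ v.1 ∧ a ≤ v.2 ∧ v.2 - a ≤ v.1 - i).image
    fun v => (v.1 - i + r, v.2 - a + c) := ⟨_, rfl⟩
  refine ⟨Q, ?_, ?_, ?_⟩
  · rw [hQ]
    exact (Finset.card_image_le.trans (Finset.card_filter_le _ _)).trans hE
  · intro w hw
    rw [hQ] at hw
    obtain ⟨v, hv, rfl⟩ := Finset.mem_image.1 hw
    obtain ⟨hvE, h3, h4, h5⟩ := Finset.mem_filter.1 hv
    obtain ⟨i', a', h6, h7⟩ := hN v hvE
    have h8 := max_of_none h1 h0 h6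
    refine ⟨?_, r, c, h2, ?_⟩
    · show v.2 - a + c ≤ v.1 - i + r
      omega
    · show v.1 - i + r < r + H
      omega
  · intro ω
    refine ⟨fun v => (answer τ Q ω (v.1 - i + r, v.2 - a + c)).getD false, fun v b hvv hb => ?_⟩
    by_cases hF : (v.1 + i, v.2 + a) ∈ F'
    · exact Or.inr (Finset.mem_union_right _ hF)
    by_cases hcase : (v.1 + i, v.2 + a) ∈ E ∪ F' ∧ σ (v.1 + i, v.2 + a) = none
    · left
      have hVE : (v.1 + i, v.2 + a) ∈ E := (Finset.mem_union.1 hcase.1).resolve_right hF
      unfold answer at hb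
      rw [if_pos hcase] at hb
      have hb' : (answer τ Q ω (v.1 + i - i + r, v.2 + a - a + c)).getD false = b := Option.some.inj hb
      rw [Nat.add_sub_cancel, Nat.add_sub_cancel] at hb'
      have hW : (v.1 + r, v.2 + c) ∈ Q := by
        rw [hQ]
        refine Finset.mem_image.2 ⟨(v.1 + i, v.2 + a), Finset.mem_filter.2 ⟨hVE, ?_, ?_, ?_⟩, ?_⟩
        · show i ≤ v.1 + i
          omega
        · show a ≤ v.2 + a
          omega
        · show v.2 + a - a ≤ v.1 + i - i
          omega
        · show (v.1 + i - i + r, v.2 + a - a + c) = (v.1 + r, v.2 + c)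
          rw [Nat.add_sub_cancel, Nat.add_sub_cancel]
      obtain ⟨x, hx⟩ := Option.ne_none_iff_exists'.1 (answer_ne_none τ Q ω hW)
      rw [hx] at hb' ⊢
      rw [← hb']
      rfl
    · unfold answer at hb
      rw [if_neg hcase] at hb
      rcases hs v b hvv hb with h3 | h3
      · exact Or.inl (ext_answer τ Q ω _ _ h3)
      · exact Or.inr (Finset.mem_union_left _ h3)

/-- THE SIMULATION. `(i, a)` is on the path of the play `σ` with questions far ahead (the set `F`), `(r, c)` on the path of the local play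
`τ`; below these vertices the answers of `σ` outside `F` are answers of `τ`. When the path of `σ` meets a vertex of `F` that is not answered
in the same way by `τ`, Paul asks it in the local play; if the answer is the other one, `H - 1` levels of the play `σ` are given away. -/
theorem hit_sim {H q n m h : ℕ} (hH : 1 ≤ H) (hq : 1 ≤ q) : ∀ (N j y i a r c : ℕ) (σ τ : State) (F : Finset (ℕ × ℕ)), N = j + y →
    Reach σ i 0 0 a → Reach τ r 0 0 c →
    (∀ (v : ℕ × ℕ) (b : Bool), v.2 ≤ v.1 → σ (v.1 + i, v.2 + a) = some b →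
      τ (v.1 + r, v.2 + c) = some b ∨ (v.1 + i, v.2 + a) ∈ F) →
    (∀ v, σ v ≠ none → v.1 < i + H ∨ v ∈ F) → h ≤ y + hits σ F i → m + i + (H - 1) * y ≤ n + r →
    HitWins H q n h j F σ → LocalWins H q m N τ := by
  intro N
  induction N with
  | zero =>
    intro j y i a r c σ τ F hN h1 h2 h3 h4 h5 h6 hw
    have hj : j = 0 := by omega
    have hy : y = 0 := by omega
    subst hj
    subst hy
    obtain ⟨B, hB⟩ : ∃ B, ∀ v, σ v ≠ none → v.1 < B := by
      refine ⟨i + H + F.sup (fun v => v.1 + 1), fun v hv => ?_⟩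
      rcases h4 v hv with h | h
      · omega
      · have h' : v.1 + 1 ≤ F.sup (fun v => v.1 + 1) := Finset.le_sup (f := fun v : ℕ × ℕ => v.1 + 1) h
        omega
    obtain ⟨t, a', c', k1, k2, k3, k4⟩ := advance (τ := τ) hB B i a r c (Nat.le_add_left _ _)
    have hb1 := k1.bound
    have hb2 := k2.bound
    have l1 : Reach σ (i + t) 0 0 a' := h1.comp (by rwa [zero_add])
    have l2 : Reach τ (r + t) 0 0 c' := h2.comp (by rwa [zero_add])
    refine lw_goal 0 τ (Goal.of_le (n := r + t) ?_ ⟨c', l2⟩)
    by_contra hlt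
    have hin : i + t < n := by omega
    have hF : (i + t, a') ∈ F := by
      rcases k4 with k4 | k4
      · obtain ⟨b, hb⟩ := hit_goal hw
        have := max_of_none l1 k4 hb
        omega
      · by_cases hne : σ (i + t, a') = none
        · obtain ⟨b, hb⟩ := hit_goal hw
          have := max_of_none l1 hne hb
          omega
        · obtain ⟨b, hb⟩ := Option.ne_none_iff_exists'.1 hne
          have e := h3 (t, a' - a) b (by simp only; omega)
          simp only at e
          have e1 : t + i = i + t := by omega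
          have e2 : a' - a + a = a' := by omega
          have e3 : t + r = r + t := by omega
          have e4 : a' - a + c = c' := by omega
          rw [e1, e2, e3, e4] at e
          rcases e hb with e5 | e5
          · rw [e5, hb] at k4
            exact absurd rfl k4
          · exact e5
    have g1 := hits_succ l1 hF
    have g2 : hits σ F i ≤ hits σ F (i + t) := hits_mono (Ext.refl σ) (Finset.Subset.refl F) (Nat.le_add_right i t)
    have g3 : hits σ F (i + t + 1) ≤ hits σ F n := hits_mono (Ext.refl σ) (Finset.Subset.refl F) hin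
    have g4 := hit_le _ _ _ hw
    omega
  | succ N ih =>
    intro j y i a r c σ τ F hN h1 h2 h3 h4 h5 h6 hw
    obtain ⟨B, hB⟩ : ∃ B, ∀ v, σ v ≠ none → v.1 < B := by
      refine ⟨i + H + F.sup (fun v => v.1 + 1), fun v hv => ?_⟩
      rcases h4 v hv with h | h
      · omega
      · have h' : v.1 + 1 ≤ F.sup (fun v => v.1 + 1) := Finset.le_sup (f := fun v : ℕ × ℕ => v.1 + 1) h
        omega
    obtain ⟨t, a', c', k1, k2, k3, k4⟩ := advance (τ := τ) hB B i a r c (Nat.le_add_left _ _)
    have hb1 := k1.bound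
    have hb2 := k2.bound
    have l1 : Reach σ (i + t) 0 0 a' := h1.comp (by rwa [zero_add])
    have l2 : Reach τ (r + t) 0 0 c' := h2.comp (by rwa [zero_add])
    have hbd := l2.bound
    by_cases hin : n ≤ i + t
    · exact lw_goal _ τ (Goal.of_le (n := r + t) (by omega) ⟨c', l2⟩)
    have hin : i + t < n := by omega
    have g2 : hits σ F i ≤ hits σ F (i + t) := hits_mono (Ext.refl σ) (Finset.Subset.refl F) (Nat.le_add_right i t)
    have g4 := hit_le _ _ _ hw
    -- the agreement below the new vertices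
    have h3' : ∀ (v : ℕ × ℕ) (b : Bool), v.2 ≤ v.1 → σ (v.1 + (i + t), v.2 + a') = some b →
        τ (v.1 + (r + t), v.2 + c') = some b ∨ (v.1 + (i + t), v.2 + a') ∈ F := by
      intro v b hv hvb
      have e := h3 (v.1 + t, v.2 + (a' - a)) b (by simp only; omega)
      simp only at e
      have e1 : v.1 + t + i = v.1 + (i + t) := by omega
      have e2 : v.2 + (a' - a) + a = v.2 + a' := by omega
      have e3 : v.1 + t + r = v.1 + (r + t) := by omega
      have e4 : v.2 + (a' - a) + c = v.2 + c' := by omega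
      rw [e1, e2, e3, e4] at e
      exact e hvb
    by_cases hne : σ (i + t, a') = none
    · -- one round
      cases j with
      | zero =>
        obtain ⟨b, hb⟩ := hit_goal hw
        have := max_of_none l1 hne hb
        omega
      | succ j =>
        obtain ⟨E, F', e1, e3, e4, e5⟩ := hw
        obtain ⟨Q, f1, f2, f3⟩ := round (F' := F') ((Finset.card_le_card Finset.subset_union_left).trans e1) l1 l2 hne h3' e4
        refine ⟨Q, f1, f2, fun ω => ?_⟩
        obtain ⟨ω', g⟩ := f3 ω
        refine ih j y (i + t) a' (r + t) c' (answer σ (E ∪ F') ω') (answer τ Q ω) (F ∪ F') (by omega)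
          (l1.mono (ext_answer _ _ _)) (l2.mono (ext_answer _ _ _)) g ?_ ?_ (by omega) (e5 ω')
        · intro v hv
          by_cases hv1 : v ∈ E ∪ F' ∧ σ v = none
          · rcases Finset.mem_union.1 hv1.1 with hv2 | hv2
            · obtain ⟨i', a'', k1, k2⟩ := e4 v hv2
              have := max_of_none l1 hne k1
              exact Or.inl (by omega)
            · exact Or.inr (Finset.mem_union_right _ hv2)
          · unfold answer at hv
            rw [if_neg hv1] at hv
            rcases h4 v hv with h | h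
            · exact Or.inl (by omega)
            · exact Or.inr (Finset.mem_union_left _ h)
        · have g5 : hits σ F (i + t) ≤ hits (answer σ (E ∪ F') ω') (F ∪ F') (i + t) :=
            hits_mono (ext_answer _ _ _) Finset.subset_union_left le_rfl
          omega
    · -- a vertex of `F`
      obtain ⟨b, hb⟩ := Option.ne_none_iff_exists'.1 hne
      have hF : (i + t, a') ∈ F := by
        rcases h3' (0, 0) b le_rfl (by simp only [zero_add]; exact hb) with e5 | e5
        · simp only [zero_add] at e5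
          rcases k4 with k4 | k4
          · exact absurd k4 hne
          · rw [e5, hb] at k4
            exact absurd rfl k4
        · simpa only [zero_add] using e5
      have g1 := hits_succ l1 hF
      have g3 : hits σ F (i + t + 1) ≤ hits σ F n := hits_mono (Ext.refl σ) (Finset.Subset.refl F) hin
      obtain ⟨y', rfl⟩ : ∃ y', y = y' + 1 := ⟨y - 1, by omega⟩
      refine ⟨{(r + t, c')}, by simpa using hq, ?_, fun ω => ?_⟩
      · intro v hv
        rw [Finset.mem_singleton] at hv
        subst hv
        exact ⟨by simp only; omega, r + t, c', l2, by simp only; omega⟩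
      have hx := ext_answer τ {(r + t, c')} ω
      obtain ⟨b', hb'⟩ := Option.ne_none_iff_exists'.1 (answer_ne_none τ {(r + t, c')} ω (Finset.mem_singleton_self (r + t, c')))
      generalize answer τ {(r + t, c')} ω = τ₁ at hx hb' ⊢
      have hmul : (H - 1) * (y' + 1) = (H - 1) * y' + (H - 1) := by ring
      rw [hmul] at h6
      -- the steps
      have st1 : Reach σ (i + t + 1) 0 0 (a' + if b = true then 1 else 0) := by
        refine l1.comp (t := 1) ?_
        rw [zero_add]
        cases b
        · exact Or.inl ⟨hb, rfl⟩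
        · exact Or.inr ⟨hb, rfl⟩
      have st2 : Reach τ₁ (r + t + 1) 0 0 (c' + if b' = true then 1 else 0) := by
        refine (l2.mono hx).comp (t := 1) ?_
        rw [zero_add]
        cases b'
        · exact Or.inl ⟨hb', rfl⟩
        · exact Or.inr ⟨hb', rfl⟩
      by_cases hbb : b' = b
      · subst hbb
        refine ih j y' (i + t + 1) _ (r + t + 1) _ σ τ₁ F (by omega) st1 st2 ?_ ?_ (by omega) (by omega) hw
        · intro v b hv hvb
          have e := h3' (v.1 + 1, v.2 + if b' = true then 1 else 0) b (by simp only; split_ifs <;> omega)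
          simp only at e
          have e1 : v.1 + 1 + (i + t) = v.1 + (i + t + 1) := by omega
          have e2 : v.2 + (if b' = true then 1 else 0) + a' = v.2 + (a' + if b' = true then 1 else 0) := by omega
          have e3 : v.1 + 1 + (r + t) = v.1 + (r + t + 1) := by omega
          have e4 : v.2 + (if b' = true then 1 else 0) + c' = v.2 + (c' + if b' = true then 1 else 0) := by omega
          rw [e1, e2, e3, e4] at e
          rcases e hvb with e | e
          · exact Or.inl (hx _ _ e)
          · exact Or.inr e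
        · intro v hv
          rcases h4 v hv with h | h
          · exact Or.inl (by omega)
          · exact Or.inr h
      · obtain ⟨σ₂, A, w1, w2, w3⟩ := extend (H - 1) (i + t + 1) (a' + if b = true then 1 else 0) σ
        have hr : Reach σ₂ (i + t + 1 + (H - 1)) 0 0 A := (st1.mono w1).comp (by rwa [zero_add])
        have hm2 : ∀ v, σ₂ v ≠ none → i + t + 1 + (H - 1) ≤ v.1 → v ∈ F := by
          intro v hv hJ
          rcases w3 v hv with h | h
          · rcases h4 v h with h | h
            · omega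
            · exact h
          · omega
        refine ih j y' (i + t + 1 + (H - 1)) A (r + t + 1) _ σ₂ τ₁ F (by omega) hr st2 ?_ ?_ ?_ (by omega)
          (hit_mono _ _ _ _ w1 hw)
        · intro v b _ hvb
          exact Or.inr (hm2 _ (by rw [hvb]; simp) (by simp only; omega))
        · intro v hv
          by_cases hJ : i + t + 1 + (H - 1) ≤ v.1
          · exact Or.inr (hm2 v hv hJ)
          · exact Or.inl (by omega)
        · have g5 : hits σ F (i + t + 1) ≤ hits σ₂ F (i + t + 1 + (H - 1)) :=
            hits_mono w1 (Finset.Subset.refl F) (Nat.le_add_right _ _)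
          omega

/-- VERTICES ASKED FAR AHEAD ARE WORTH AT MOST `H - 1` LEVELS AND ONE ROUND EACH. -/
theorem hit_local {H q n m k h : ℕ} (hH : 1 ≤ H) (hq : 1 ≤ q) (hm : m + (H - 1) * h ≤ n)
    (hw : HitWins H q n h k ∅ fun _ => none) : LocalWins H q m (k + h) fun _ => none :=
  hit_sim hH hq (k + h) k h 0 0 0 0 _ _ ∅ rfl rfl rfl (fun v b _ hb => by simp at hb) (by simp) (by omega) (by omega) hw

end Pool.Agent.PyrQ
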