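import Pool.Agent.PyrQ.Extra

/-!
# Pyramid games with bounded look-ahead

Paul asks only vertices less than `H` levels below the current vertex (the vertex to which the answers lead from the root).
-/

set_option autoImplicit false

open Filter Topology

namespace Pool.Agent.PyrQ

/-- The vertex `v` lies less than `H` levels below a vertex `(i, a)` to which the answers lead from the root. -/
def Near (H : ℕ) (σ : State) (v : ℕ × ℕ) : Prop := ∃ i a, Reach σ i 0 0 a ∧ v.1 < i + H

/-- Paul, with at most `q` questions per round, all with look-ahead less than `H`, wins the first `n` levels in `k` more rounds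
from the state `σ`: then exactly one consistent path from the root to level `n` remains. -/
def LocalWins (H q n : ℕ) : ℕ → State → Prop
  | 0, σ => ∃! d : Fin n → Bool, Consistent σ d
  | k + 1, σ => ∃ Q : Finset (ℕ × ℕ), Q.card ≤ q ∧ (∀ v ∈ Q, v.2 ≤ v.1 ∧ Near H σ v) ∧
      ∀ ω : ℕ × ℕ → Bool, LocalWins H q n k (answer σ Q ω)

/-- The least number of rounds in which Paul wins the first `n` levels with look-ahead less than `H` from the empty state. -/
noncomputable def localRounds (H q n : ℕ) : ℕ := sInf {k : ℕ | LocalWins H q n k fun _ => none}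

/-- all answered vertices are near -/
def Inv (H : ℕ) (σ : State) : Prop := ∀ v, σ v ≠ none → Near H σ v

theorem Near.mono {H : ℕ} {σ τ : State} {v : ℕ × ℕ} (h : Ext σ τ) (hv : Near H σ v) : Near H τ v := by
  obtain ⟨i, a, h1, h2⟩ := hv
  exact ⟨i, a, h1.mono h, h2⟩

theorem lw_zero {H q n : ℕ} {σ : State} : LocalWins H q n 0 σ ↔ Goal n σ := unique_iff' n σ

/-- More answers do not hurt. Proof: copy `win_mono` of Extra.lean (same `ω`: `fun v => (τ v).getD (ω v)`), with `Near.mono` for the
second condition. -/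
theorem lw_mono {H q n : ℕ} : ∀ (k : ℕ) (σ τ : State), Ext σ τ → LocalWins H q n k σ → LocalWins H q n k τ
  | 0, σ, τ, h, hw => lw_zero.2 ((lw_zero.1 hw).mono h)
  | k + 1, σ, τ, h, hw => by
    obtain ⟨Q, h1, h2, h3⟩ := hw
    refine ⟨Q, h1, fun v hv => ⟨(h2 v hv).1, (h2 v hv).2.mono h⟩, fun ω => ?_⟩
    refine lw_mono k _ _ ?_ (h3 fun v => (τ v).getD (ω v))
    intro v b hv
    unfold answer at hv ⊢
    by_cases hc : v ∈ Q ∧ σ v = none
    · rw [if_pos hc] at hv
      have hv' : (τ v).getD (ω v) = b := Option.some.inj hv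
      cases ht : τ v with
      | none =>
        rw [ht] at hv'
        rw [if_pos ⟨hc.1, rfl⟩]
        exact congrArg some hv'
      | some c =>
        rw [ht] at hv'
        rw [if_neg (by simp)]
        exact congrArg some hv'
    · rw [if_neg hc] at hv
      have ht := h v b hv
      rw [if_neg (by rw [ht]; simp), ht]

/-- Induction on `s` (generalizing `i`, `a`). -/
theorem Reach.split {σ : State} : ∀ {s t i a b : ℕ}, Reach σ (s + t) i a b → ∃ c, Reach σ s i a c ∧ Reach σ t (i + s) c b := by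
  intro s
  induction s with
  | zero =>
    intro t i a b h
    rw [zero_add] at h
    exact ⟨a, rfl, h⟩
  | succ s ih =>
    intro t i a b h
    have e : s + 1 + t = (s + t) + 1 := by omega
    rw [e] at h
    have e' : i + (s + 1) = i + 1 + s := by omega
    rw [e']
    rcases h with ⟨h1, h2⟩ | ⟨h1, h2⟩
    · obtain ⟨c, h3, h4⟩ := ih h2
      exact ⟨c, Or.inl ⟨h1, h3⟩, h4⟩
    · obtain ⟨c, h3, h4⟩ := ih h2
      exact ⟨c, Or.inr ⟨h1, h3⟩, h4⟩

/-- Induction on `t`: the state has only one answer at `(i, a)`. -/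
theorem Reach.unique {σ : State} : ∀ {t i a b c : ℕ}, Reach σ t i a b → Reach σ t i a c → b = c := by
  intro t
  induction t with
  | zero =>
    intro i a b c h h'
    have h1 : b = a := h
    have h2 : c = a := h'
    rw [h1, h2]
  | succ t ih =>
    intro i a b c h h'
    rcases h with ⟨h1, h2⟩ | ⟨h1, h2⟩
    · rcases h' with ⟨h3, h4⟩ | ⟨h3, h4⟩
      · exact ih h2 h4
      · rw [h1] at h3
        simp at h3
    · rcases h' with ⟨h3, h4⟩ | ⟨h3, h4⟩
      · rw [h1] at h3
        simp at h3
      · exact ih h2 h4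

/-- `Reach.split` -/
theorem Goal.of_le {m n : ℕ} {σ : State} (hmn : m ≤ n) (h : Goal n σ) : Goal m σ := by
  obtain ⟨b, hb⟩ := h
  obtain ⟨t, rfl⟩ := Nat.exists_eq_add_of_le hmn
  obtain ⟨c, h1, -⟩ := hb.split
  exact ⟨c, h1⟩

/-- Fewer levels are easier. Induction on `k`; `k = 0`: `lw_zero`, `Goal.of_le`. -/
theorem lw_le {H q m n : ℕ} (hmn : m ≤ n) : ∀ (k : ℕ) (σ : State), LocalWins H q n k σ → LocalWins H q m k σ := by
  intro k
  induction k with
  | zero =>
    intro σ h
    exact lw_zero.2 (Goal.of_le hmn (lw_zero.1 h))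
  | succ k ih =>
    intro σ h
    obtain ⟨Q, h1, h2, h3⟩ := h
    exact ⟨Q, h1, h2, fun ω => ih _ (h3 ω)⟩

/-- More look-ahead is easier. -/
theorem lw_look {H H' q n : ℕ} (hH : H ≤ H') : ∀ (k : ℕ) (σ : State), LocalWins H q n k σ → LocalWins H' q n k σ := by
  intro k
  induction k with
  | zero =>
    intro σ h
    exact lw_zero.2 (lw_zero.1 h)
  | succ k ih =>
    intro σ h
    obtain ⟨Q, h1, h2, h3⟩ := h
    refine ⟨Q, h1, fun v hv => ⟨(h2 v hv).1, ?_⟩, fun ω => ih _ (h3 ω)⟩
    obtain ⟨i, a, h4, h5⟩ := (h2 v hv).2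
    exact ⟨i, a, h4, by omega⟩

/-- For `n ≤ H` every question of the `n`-level pyramid is near (`i = 0`, `a = 0`, `Reach σ 0 0 0 0` is `rfl`). -/
theorem lw_of_win {H q n : ℕ} (hH : n ≤ H) : ∀ (k : ℕ) (σ : State), Win q (NT n) (Goal n) k σ → LocalWins H q n k σ := by
  intro k
  induction k with
  | zero =>
    intro σ h
    exact lw_zero.2 h
  | succ k ih =>
    intro σ h
    obtain ⟨Q, h1, h2, h3⟩ := h
    refine ⟨Q, h1, fun v hv => ⟨(h2 v hv).1, 0, 0, rfl, ?_⟩, fun ω => ih _ (h3 ω)⟩
    have h4 := (h2 v hv).2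
    omega

private theorem res_reach {n : ℕ} {σ τ : State} (h : ∀ v : ℕ × ℕ, v.1 < n → σ v = τ v) :
    ∀ {t i a b : ℕ}, i + t ≤ n → Reach σ t i a b → Reach τ t i a b := by
  intro t
  induction t with
  | zero =>
    intro i a b _ hr
    exact hr
  | succ t ih =>
    intro i a b hn hr
    have h0 : σ (i, a) = τ (i, a) := h (i, a) (show i < n by omega)
    rcases hr with ⟨h1, h2⟩ | ⟨h1, h2⟩
    · exact Or.inl ⟨h0.symm.trans h1, ih (by omega) h2⟩
    · exact Or.inr ⟨h0.symm.trans h1, ih (by omega) h2⟩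

/-- Answers on the levels from `n` on do not matter: Paul drops these questions. Induction on `k`: the questions are
`Q.filter fun v => v.1 < n`, the states `answer σ Q ω` and `answer τ (Q.filter _) ω` agree on the levels below `n`. For `k = 0` one needs:
`Reach σ t i a b`, `i + t ≤ n` and agreement below level `n` give `Reach τ t i a b` (induction on `t`; private lemma in the block). -/
theorem restrict {H q n : ℕ} : ∀ (k : ℕ) (σ τ : State), (∀ v : ℕ × ℕ, v.1 < n → σ v = τ v) → LocalWins H q n k σ →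
    Win q (NT n) (Goal n) k τ := by
  intro k
  induction k with
  | zero =>
    intro σ τ h hw
    obtain ⟨b, hb⟩ := lw_zero.1 hw
    exact ⟨b, res_reach h (by omega) hb⟩
  | succ k ih =>
    intro σ τ h hw
    obtain ⟨Q, h1, h2, h3⟩ := hw
    refine ⟨Q.filter fun v => v.1 < n, (Finset.card_filter_le _ _).trans h1, fun v hv => ?_,
      fun ω => ?_⟩
    · rw [Finset.mem_filter] at hv
      exact ⟨(h2 v hv.1).1, hv.2⟩
    · refine ih (answer σ Q ω) _ (fun v hv => ?_) (h3 ω)
      have e : (v ∈ Q.filter fun v => v.1 < n) ↔ v ∈ Q := by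
        rw [Finset.mem_filter]
        exact ⟨fun h' => h'.1, fun h' => ⟨h', hv⟩⟩
      unfold answer
      simp only [e, h v hv]

/-- Paul can follow the path, one question per round: copy `win_follow` of Extra.lean; the question `(i, a)` is near as `1 ≤ H`. -/
theorem lw_follow {H q n : ℕ} (hH : 1 ≤ H) (hq : 1 ≤ q) :
    ∀ (t i a : ℕ) (σ : State), i + t = n → a ≤ i → Reach σ i 0 0 a → LocalWins H q n t σ
  | 0, i, a, σ, h, _, hr => by
    have h' : i = n := h
    exact lw_zero.2 ⟨a, by rw [← h']; exact hr⟩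
  | t + 1, i, a, σ, h, hai, hr => by
    refine ⟨{(i, a)}, by simpa using hq, ?_, fun ω => ?_⟩
    · intro v hv
      rw [Finset.mem_singleton] at hv
      subst hv
      exact ⟨hai, i, a, hr, by simp only; omega⟩
    · obtain ⟨b, hb⟩ := reach_one (answer_ne_none σ {(i, a)} ω (Finset.mem_singleton_self (i, a)))
      have hbb := hb.bound
      refine lw_follow hH hq t (i + 1) b _ (by omega) (by omega) ?_
      exact (hr.mono (ext_answer σ {(i, a)} ω)).comp (by rwa [zero_add])

/-- ONE BLOCK. Paul plays a local strategy of `k` rounds for `n` levels from the current vertex `(i, a)` and goes on. Copy `block` of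
Extra.lean with `e = 0` and no `R` (the new virtual state is `answer σ₀ Q fun v => (sh σ i a v).getD (ω (v.1 + i, v.2 + a))`, the questions
are `Q.image fun v => (v.1 + i, v.2 + a)`); near: `Reach σ₀ x 0 0 y` gives `Reach σ x i a (y + a)` by `Reach.mono`, `reach_sh`, and
`Reach.comp` with the path to `(i, a)`. -/
theorem lw_block {H q n N i a : ℕ} (hai : a ≤ i) {k' : ℕ} :
    ∀ (k : ℕ) (σ₀ σ : State), Reach σ i 0 0 a → Ext σ₀ (sh σ i a) → LocalWins H q n k σ₀ →
      (∀ τ, Ext σ τ → (∃ b, Reach τ n i a b) → LocalWins H q N k' τ) → LocalWins H q N (k + k') σ := by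
  intro k
  induction k with
  | zero =>
    intro σ₀ σ _ hσ hw hG
    rw [zero_add]
    obtain ⟨b, hb⟩ := lw_zero.1 hw
    have h1 := reach_sh (hb.mono hσ)
    rw [zero_add, zero_add] at h1
    exact hG σ (Ext.refl σ) ⟨_, h1⟩
  | succ k ih =>
    intro σ₀ σ hr hσ hw hG
    obtain ⟨Q, h1, h2, h3⟩ := hw
    have ek : k + 1 + k' = (k + k') + 1 := by omega
    rw [ek]
    refine ⟨Q.image (fun v => (v.1 + i, v.2 + a)), Finset.card_image_le.trans h1, ?_, fun ω => ?_⟩
    · intro v hv
      obtain ⟨w, hw, rfl⟩ := Finset.mem_image.1 hv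
      obtain ⟨hw1, x, y, hxy, hlt⟩ := h2 w hw
      have h4 := reach_sh (hxy.mono hσ)
      rw [zero_add, zero_add] at h4
      refine ⟨by show w.2 + a ≤ w.1 + i; omega, i + x, y + a, Reach.comp hr ?_, ?_⟩
      · rwa [zero_add]
      · show w.1 + i < i + x + H
        omega
    · refine ih (answer σ₀ Q fun v => (sh σ i a v).getD (ω (v.1 + i, v.2 + a)))
        (answer σ (Q.image fun v => (v.1 + i, v.2 + a)) ω) (hr.mono (ext_answer σ _ ω)) ?_ (h3 _) ?_
      · intro v b hv
        show answer σ (Q.image fun v => (v.1 + i, v.2 + a)) ω (v.1 + i, v.2 + a) = some b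
        unfold answer at hv ⊢
        by_cases hc : v ∈ Q ∧ σ₀ v = none
        · rw [if_pos hc] at hv
          have hv' : (σ (v.1 + i, v.2 + a)).getD (ω (v.1 + i, v.2 + a)) = b := Option.some.inj hv
          have hm : (v.1 + i, v.2 + a) ∈ Q.image fun v => (v.1 + i, v.2 + a) :=
            Finset.mem_image.2 ⟨v, hc.1, rfl⟩
          cases ht : σ (v.1 + i, v.2 + a) with
          | none =>
            rw [ht] at hv'
            rw [if_pos ⟨hm, rfl⟩]
            exact congrArg some hv'
          | some c =>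
            rw [ht] at hv'
            rw [if_neg (by simp)]
            exact congrArg some hv'
        · rw [if_neg hc] at hv
          have ht : σ (v.1 + i, v.2 + a) = some b := hσ v b hv
          rw [if_neg (by rw [ht]; simp), ht]
      · intro τ hτ hb
        exact hG τ ((ext_answer σ _ ω).trans hτ) hb

/-- Two blocks (`lw_block` twice: with `i = a = 0` and with `(m, b)`; the last with `k' = 0` and `lw_zero`). -/
theorem lw_add {H q m n k l : ℕ} (h1 : LocalWins H q m k fun _ => none) (h2 : LocalWins H q n l fun _ => none) :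
    LocalWins H q (m + n) (k + l) fun _ => none := by
  refine lw_block (n := m) (N := m + n) (i := 0) (a := 0) le_rfl (k' := l) k (fun _ => none) (fun _ => none) rfl
    (fun v b hv => by simp at hv) h1 ?_
  rintro τ - ⟨b, hb⟩
  have hbm : b ≤ m := by
    have := hb.bound
    omega
  have h := lw_block (H := H) (q := q) (n := n) (N := m + n) (i := m) (a := b) hbm (k' := 0) l (fun _ => none) τ hb
    (fun v c hv => by simp at hv) h2 (fun υ hυ h => by
      obtain ⟨b', hb'⟩ := h
      refine lw_zero.2 ⟨b', Reach.comp (hb.mono hυ) ?_⟩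
      rw [Nat.zero_add]
      exact hb')
  exact h

/-- A consistent path of `t` steps from `(i, a)` can be given away. Induction on `t`: if `σ (i, a)` is answered go on with `σ`, otherwise
with `Function.update σ (i, a) (some false)`. -/
theorem extend : ∀ (t i a : ℕ) (σ : State), ∃ (τ : State) (b : ℕ), Ext σ τ ∧ Reach τ t i a b ∧
    ∀ v, τ v ≠ none → σ v ≠ none ∨ (i ≤ v.1 ∧ v.1 < i + t) := by
  intro t
  induction t with
  | zero =>
    intro i a σ
    exact ⟨σ, a, Ext.refl σ, rfl, fun v hv => Or.inl hv⟩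
  | succ t ih =>
    intro i a σ
    rcases h : σ (i, a) with _ | c
    · obtain ⟨τ, b, h1, h2, h3⟩ := ih (i + 1) a (Function.update σ (i, a) (some false))
      have hE : Ext σ (Function.update σ (i, a) (some false)) := by
        intro v c hv
        have hne : v ≠ (i, a) := fun e => by
          rw [e, h] at hv
          exact (Option.some_ne_none c hv.symm)
        rw [Function.update_of_ne hne]
        exact hv
      refine ⟨τ, b, hE.trans h1, Or.inl ⟨h1 _ _ (Function.update_self _ _ _), h2⟩, fun v hv => ?_⟩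
      rcases h3 v hv with h4 | h4
      · by_cases hvi : v = (i, a)
        · subst hvi
          exact Or.inr ⟨le_rfl, by simp⟩
        · rw [Function.update_of_ne hvi] at h4
          exact Or.inl h4
      · exact Or.inr ⟨by omega, by omega⟩
    · cases c
      · obtain ⟨τ, b, h1, h2, h3⟩ := ih (i + 1) a σ
        refine ⟨τ, b, h1, Or.inl ⟨h1 _ _ h, h2⟩, fun v hv => ?_⟩
        rcases h3 v hv with h4 | h4
        · exact Or.inl h4
        · exact Or.inr ⟨by omega, by omega⟩
      · obtain ⟨τ, b, h1, h2, h3⟩ := ih (i + 1) (a + 1) σ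
        refine ⟨τ, b, h1, Or.inr ⟨h1 _ _ h, h2⟩, fun v hv => ?_⟩
        rcases h3 v hv with h4 | h4
        · exact Or.inl h4
        · exact Or.inr ⟨by omega, by omega⟩

/-- `ρ` contains the answers of `τ` in the triangle below `(I, A)`: a path of `τ` there is a path of `ρ`. Induction on `t`. -/
theorem unproj {I A : ℕ} {τ ρ : State} (h : ∀ (v : ℕ × ℕ) (b : Bool), v.2 ≤ v.1 → τ (v.1 + I, v.2 + A) = some b → ρ v = some b) :
    ∀ (t x y b : ℕ), y ≤ x → Reach τ t (x + I) (y + A) b → ∃ b', Reach ρ t x y b' := by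
  intro t
  induction t with
  | zero =>
    intro x y b _ _
    exact ⟨y, rfl⟩
  | succ t ih =>
    intro x y b hyx hr
    have e : x + I + 1 = x + 1 + I := by omega
    rcases hr with ⟨h1, h2⟩ | ⟨h1, h2⟩
    · rw [e] at h2
      obtain ⟨b', hb'⟩ := ih (x + 1) y b (by omega) h2
      exact ⟨b', Or.inl ⟨h (x, y) false hyx h1, hb'⟩⟩
    · have e' : y + A + 1 = y + 1 + A := by omega
      rw [e, e'] at h2
      obtain ⟨b', hb'⟩ := ih (x + 1) (y + 1) b (by omega) h2
      exact ⟨b', Or.inr ⟨h (x, y) true hyx h1, hb'⟩⟩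

/-- PROJECTION to the pyramid below `(I, A)`. Induction on `j`. `j = 0`: `lw_zero`, `Reach.split`, `Reach.unique`, `unproj` with
`x = y = 0`. Step: `Q` are the questions for `τ`; for `ρ` ask `Q' = (Q.filter fun v => I ≤ v.1 ∧ A ≤ v.2 ∧ v.2 - A ≤ v.1 - I).image fun v =>
(v.1 - I, v.2 - A)`; given `ω'`, use `ω v = (answer ρ Q' ω' (v.1 - I, v.2 - A)).getD false` for `τ`: the invariant (3rd hypothesis) is kept
(`answer_ne_none`). Near: `v.1 + I < i + H` with `Reach τ i 0 0 a`; if `I ≤ i` then `Reach.split`, `Reach.unique`, `unproj` give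
`Reach ρ (i - I) 0 0 b'`; otherwise `v.1 < H` and the root does it. `Reach τ I 0 0 A` goes on by `Reach.mono`, `ext_answer`. -/
theorem project {H q n I A : ℕ} : ∀ (j : ℕ) (τ ρ : State), Reach τ I 0 0 A →
    (∀ (v : ℕ × ℕ) (b : Bool), v.2 ≤ v.1 → τ (v.1 + I, v.2 + A) = some b → ρ v = some b) →
    LocalWins H q (I + n) j τ → LocalWins H q n j ρ := by
  intro j
  induction j with
  | zero =>
    intro τ ρ hr hinv hw
    rw [lw_zero] at hw ⊢
    obtain ⟨b, hb⟩ := hw
    obtain ⟨c, hc1, hc2⟩ := Reach.split hb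
    have hcA : c = A := Reach.unique hc1 hr
    subst hcA
    obtain ⟨b', hb'⟩ := unproj hinv n 0 0 b le_rfl (by rw [Nat.zero_add] at hc2 ⊢; rwa [Nat.zero_add])
    exact ⟨b', hb'⟩
  | succ j ih =>
    intro τ ρ hr hinv hw
    obtain ⟨Q, h1, h2, h3⟩ := hw
    let Q0 : Finset (ℕ × ℕ) := Q.filter fun v => I ≤ v.1 ∧ A ≤ v.2 ∧ v.2 - A ≤ v.1 - I
    let Q' : Finset (ℕ × ℕ) := Q0.image fun v => (v.1 - I, v.2 - A)
    refine ⟨Q', ?_, ?_, fun ω' => ?_⟩
    · exact (Finset.card_image_le.trans (Finset.card_filter_le _ _)).trans h1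
    · intro w hw
      obtain ⟨v, hv, rfl⟩ := Finset.mem_image.1 hw
      obtain ⟨hvQ, hv1, hv2, hv3⟩ := Finset.mem_filter.1 hv
      refine ⟨hv3, ?_⟩
      obtain ⟨i, a, hi1, hi2⟩ := (h2 v hvQ).2
      rcases le_total I i with hI | hI
      · obtain ⟨t, rfl⟩ := Nat.exists_eq_add_of_le hI
        obtain ⟨c, hc1, hc2⟩ := Reach.split hi1
        have hcA : c = A := Reach.unique hc1 hr
        subst hcA
        obtain ⟨b', hb'⟩ := unproj hinv t 0 0 a le_rfl
          (by rw [Nat.zero_add] at hc2 ⊢; rwa [Nat.zero_add])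
        exact ⟨t, b', hb', by show v.1 - I < t + H; omega⟩
      · exact ⟨0, 0, rfl, by show v.1 - I < 0 + H; omega⟩
    · refine ih (answer τ Q fun v => (answer ρ Q' ω' (v.1 - I, v.2 - A)).getD false)
        (answer ρ Q' ω') (hr.mono (ext_answer _ _ _)) ?_ (h3 _)
      intro v b hv hb
      by_cases hc : (v.1 + I, v.2 + A) ∈ Q ∧ τ (v.1 + I, v.2 + A) = none
      · have e0 : ((v.1 + I) - I, (v.2 + A) - A) = v := by
          rw [Nat.add_sub_cancel, Nat.add_sub_cancel]
        have hb1 : some ((answer ρ Q' ω' ((v.1 + I) - I, (v.2 + A) - A)).getD false) = some b := by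
          rw [← hb]
          exact (if_pos hc).symm
        rw [e0] at hb1
        have hmem : v ∈ Q' := by
          refine Finset.mem_image.2 ⟨(v.1 + I, v.2 + A), Finset.mem_filter.2 ⟨hc.1, ?_, ?_, ?_⟩, e0⟩
          · show I ≤ v.1 + I
            omega
          · show A ≤ v.2 + A
            omega
          · show v.2 + A - A ≤ v.1 + I - I
            omega
        have hne := answer_ne_none ρ Q' ω' hmem
        obtain ⟨c, hc'⟩ := Option.ne_none_iff_exists'.1 hne
        rw [hc'] at hb1 ⊢
        exact hb1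
      · have hb1 : τ (v.1 + I, v.2 + A) = some b := by
          rw [← hb]
          exact (if_neg hc).symm
        exact ext_answer _ _ _ _ _ (hinv v b hv hb1)

/-- by cases: `v ∈ Q` or `σ v ≠ none`; `Near.mono`, `ext_answer` -/
theorem inv_answer {H : ℕ} {σ : State} {Q : Finset (ℕ × ℕ)} {ω : ℕ × ℕ → Bool} (h : Inv H σ)
    (hQ : ∀ v ∈ Q, v.2 ≤ v.1 ∧ Near H σ v) : Inv H (answer σ Q ω) := by
  intro v hv
  by_cases hvQ : v ∈ Q
  · exact (hQ v hvQ).2.mono (ext_answer σ Q ω)
  · have h1 : answer σ Q ω v = σ v := by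
      unfold answer
      rw [if_neg fun h' => hvQ h'.1]
    rw [h1] at hv
    exact (h v hv).mono (ext_answer σ Q ω)

/-- CAROLE HOLDS PAUL ABOVE LEVEL `m`. Induction on `s`: `s = 0`: `τ = σ`. Step: the questions `Q` of the winning strategy for `N` levels do
not win `m` levels in `s` rounds, so some `ω` has `¬ LocalWins H q m s (answer σ Q ω)`. -/
theorem hold {H q m N j : ℕ} : ∀ (s : ℕ) (σ : State), Inv H σ → ¬ LocalWins H q m s σ → LocalWins H q N (s + j) σ →
    ∃ τ, Inv H τ ∧ ¬ Goal m τ ∧ LocalWins H q N j τ := by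
  intro s
  induction s with
  | zero =>
    intro σ hi hn hw
    rw [Nat.zero_add] at hw
    exact ⟨σ, hi, fun h => hn (lw_zero.2 h), hw⟩
  | succ s ih =>
    intro σ hi hn hw
    have e : s + 1 + j = (s + j) + 1 := by omega
    rw [e] at hw
    obtain ⟨Q, h1, h2, h3⟩ := hw
    have h4 : ∃ ω, ¬ LocalWins H q m s (answer σ Q ω) := by
      by_contra hc
      exact hn ⟨Q, h1, h2, fun ω => not_not.1 fun h5 => hc ⟨ω, h5⟩⟩
    obtain ⟨ω, hω⟩ := h4
    exact ih (answer σ Q ω) (inv_answer hi h2) hω (h3 ω)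

private theorem lev_card {I : ℕ} {σ : State} {A : Finset (ℕ × ℕ)}
    (hA : ∀ v, σ v ≠ none → v.1 < I ∨ v ∈ A) :
    ∀ {t i a b : ℕ}, I ≤ i → Reach σ t i a b → t ≤ (A.filter fun v => i ≤ v.1).card
  | 0, _, _, _, _, _ => Nat.zero_le _
  | t + 1, i, a, b, hi, h => by
    have h1 : (i, a) ∈ A := by
      have h0 : σ (i, a) ≠ none := by
        rcases h with ⟨h1, _⟩ | ⟨h1, _⟩ <;> (rw [h1]; simp)
      rcases hA (i, a) h0 with h2 | h2
      · have h3 : i < I := h2
        omega
      · exact h2
    have h2 : t ≤ (A.filter fun v => i + 1 ≤ v.1).card := by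
      rcases h with ⟨_, h2⟩ | ⟨_, h2⟩
      · exact lev_card hA (by omega) h2
      · exact lev_card hA (by omega) h2
    have h3 : insert (i, a) (A.filter fun v => i + 1 ≤ v.1) ⊆ A.filter fun v => i ≤ v.1 := by
      intro v hv
      rcases Finset.mem_insert.1 hv with rfl | hv
      · exact Finset.mem_filter.2 ⟨h1, le_rfl⟩
      · obtain ⟨h4, h5⟩ := Finset.mem_filter.1 hv
        exact Finset.mem_filter.2 ⟨h4, by omega⟩
    have h4 := Finset.card_le_card h3
    rw [Finset.card_insert_of_notMem (by simp)] at h4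
    omega

/-- Every level from `I` on needs its own question: `A` contains the answered vertices of the levels from `I` on. Induction on `j` as in
`le_of_win` of Extra.lean (answers `false`, `A ∪ Q`). `j = 0`: if `N ≤ I` clear; otherwise `Reach.split` at level `I` and: `Reach σ t i a b`,
`I ≤ i` give `t ≤ (A.filter fun v => i ≤ v.1).card` (copy `reach_card`; private lemma in the block). -/
theorem lev_of_win {H q N I : ℕ} : ∀ (j : ℕ) (σ : State) (A : Finset (ℕ × ℕ)), (∀ v, σ v ≠ none → v.1 < I ∨ v ∈ A) →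
    LocalWins H q N j σ → N ≤ I + A.card + q * j := by
  intro j
  induction j with
  | zero =>
    intro σ A hA hw
    obtain ⟨b, hb⟩ := lw_zero.1 hw
    by_cases hN : N ≤ I
    · omega
    · obtain ⟨t, rfl⟩ : ∃ t, N = I + t := ⟨N - I, by omega⟩
      obtain ⟨c, _, h2⟩ := Reach.split hb
      have h3 := lev_card hA (by omega) h2
      have h4 := Finset.card_filter_le A fun v => 0 + I ≤ v.1
      omega
  | succ j ih =>
    intro σ A hA hw
    obtain ⟨Q, h1, _, h3⟩ := hw
    have h4 := ih (answer σ Q fun _ => false) (A ∪ Q) (fun v hv => ?_) (h3 _)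
    · have h5 := Finset.card_union_le A Q
      have h6 : q * (j + 1) = q * j + q := by ring
      omega
    · unfold answer at hv
      by_cases h : v ∈ Q ∧ σ v = none
      · exact Or.inr (Finset.mem_union_right _ h.1)
      · rw [if_neg h] at hv
        rcases hA v hv with h7 | h7
        · exact Or.inl h7
        · exact Or.inr (Finset.mem_union_left _ h7)

/-- GIVE AWAY. If the answers of `σ` lead at most to level `I` and all answered vertices are near, they lie above level `I + H`:
`extend (I + H) 0 0 σ` (the answered vertices of `τ` lie above level `I + H`), `lw_mono`, `project` with `ρ = fun _ => none`. -/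
theorem giveaway {H q n I j : ℕ} {σ : State} (hi : Inv H σ) (hI : ∀ i a, Reach σ i 0 0 a → i ≤ I)
    (hw : LocalWins H q (I + H + n) j σ) : LocalWins H q n j fun _ => none := by
  obtain ⟨τ, b, hext, hr, hne⟩ := extend (I + H) 0 0 σ
  refine project j τ (fun _ => none) hr ?_ (lw_mono j σ τ hext hw)
  intro v c _ hv
  exfalso
  have h1 : τ (v.1 + (I + H), v.2 + b) ≠ none := by
    rw [hv]
    exact Option.some_ne_none c
  rcases hne _ h1 with h2 | h2
  · obtain ⟨i, a, h3, h4⟩ := hi _ h2
    have h5 := hI i a h3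
    have h6 : v.1 + (I + H) < i + H := h4
    omega
  · have h6 : v.1 + (I + H) < 0 + (I + H) := h2.2
    omega

/-- THE CURRENT VERTEX. Take the largest `i' ≤ N` with `∃ a', Reach σ i' 0 0 a'` (`Nat.findGreatest` or a maximum; `i ≤ i'`); `a ≤ a'` and
`a' ≤ a + (i' - i)` by `Reach.split`, `Reach.unique`, `Reach.bound`. If `i' = N` the last inequality is clear. Otherwise the answers lead
nowhere beyond level `i'` (`Reach.split`: a longer path would have a vertex on level `i' + 1 ≤ N`), so by `Inv` all answered vertices lie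
above level `i' + H`, and `lev_of_win` with `I = i' + H`, `A = ∅`. -/
theorem next {H q N j i a : ℕ} {σ : State} (hi : Inv H σ) (hw : LocalWins H q N j σ) (hr : Reach σ i 0 0 a) (hiN : i ≤ N) :
    ∃ i' a', i ≤ i' ∧ i' ≤ N ∧ Reach σ i' 0 0 a' ∧ a ≤ a' ∧ a' + i ≤ a + i' ∧ N ≤ i' + H + q * j := by
  classical
  obtain ⟨i', hi'⟩ : ∃ i', i' = Nat.findGreatest (fun m => ∃ b, Reach σ m 0 0 b) N := ⟨_, rfl⟩
  have h1 : i ≤ i' := by
    rw [hi']
    exact Nat.le_findGreatest hiN ⟨a, hr⟩
  have h2 : i' ≤ N := by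
    rw [hi']
    exact Nat.findGreatest_le N
  have h3 : ∃ b, Reach σ i' 0 0 b := by
    rw [hi']
    exact Nat.findGreatest_spec (P := fun m => ∃ b, Reach σ m 0 0 b) hiN ⟨a, hr⟩
  obtain ⟨a', ha'⟩ := h3
  have h4 : a ≤ a' ∧ a' ≤ a + (i' - i) := by
    have h5 : Reach σ (i + (i' - i)) 0 0 a' := by
      rw [Nat.add_sub_cancel' h1]
      exact ha'
    obtain ⟨c, hc1, hc2⟩ := Reach.split h5
    have hca : c = a := Reach.unique hc1 hr
    rw [hca] at hc2
    exact hc2.bound
  refine ⟨i', a', h1, h2, ha', h4.1, by omega, ?_⟩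
  rcases h2.eq_or_lt with h5 | h5
  · omega
  · have h6 : ∀ x y, Reach σ x 0 0 y → x ≤ i' := by
      intro x y hxy
      by_contra hcon
      have h7 : Reach σ ((i' + 1) + (x - (i' + 1))) 0 0 y := by
        rw [Nat.add_sub_cancel' (by omega)]
        exact hxy
      obtain ⟨c, hc1, -⟩ := Reach.split h7
      have h8 : Nat.findGreatest (fun m => ∃ b, Reach σ m 0 0 b) N < i' + 1 := by
        rw [← hi']
        exact Nat.lt_succ_self i'
      exact Nat.findGreatest_is_greatest h8 (by omega) ⟨c, hc1⟩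
    have h7 := lev_of_win (I := i' + H) j σ ∅ (fun v hv => ?_) hw
    · rw [Finset.card_empty] at h7
      omega
    · obtain ⟨x, y, hxy, hx⟩ := hi v hv
      have h8 := h6 x y hxy
      exact Or.inl (by omega)

/-- ONE STAGE. `t` rounds of the virtual play `σ₀` (a local strategy for `N` levels) with one side question per round for the vertices of
`R`. Induction on `t` as in `block` of Extra.lean with `e = 1`, `i = a = 0` (no shift): the questions are `Q ∪ E`, the virtual state
`answer σ₀ Q fun v => (τ v).getD (ω v)`; `split_set R 1 t`; `hOk`: the questions of the virtual play on the levels from `N'` on are dropped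
from the real play (`Q.filter fun v => v.1 < N'`), so the virtual state is contained in the real one only below level `N'`. -/
theorem stage {H q q' N N' : ℕ} (hq : q + 1 ≤ q') {G : State → Prop} {j k' : ℕ} :
    ∀ (t : ℕ) (σ₀ τ : State) (R : Finset (ℕ × ℕ)), R.card ≤ t → (∀ v ∈ R, NT N' v) →
      (∀ (v : ℕ × ℕ) (b : Bool), v.1 < N' → σ₀ v = some b → τ v = some b) → Inv H σ₀ → LocalWins H q N (t + j) σ₀ →
      (∀ σ₁ υ : State, Ext σ₀ σ₁ → Ext τ υ → (∀ (v : ℕ × ℕ) (b : Bool), v.1 < N' → σ₁ v = some b → υ v = some b) → Inv H σ₁ →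
        LocalWins H q N j σ₁ → (∀ v ∈ R, υ v ≠ none) → Win q' (NT N') G k' υ) →
      Win q' (NT N') G (t + k') τ
  | 0, σ₀, τ, R, hR, _, hag, hI, hw, hG => by
    have hR' : R = ∅ := Finset.card_eq_zero.1 (Nat.le_zero.1 hR)
    rw [zero_add] at hw ⊢
    refine hG σ₀ τ (Ext.refl σ₀) (Ext.refl τ) hag hI hw fun v hv => ?_
    rw [hR'] at hv
    exact absurd hv (Finset.notMem_empty v)
  | t + 1, σ₀, τ, R, hR, hRO, hag, hI, hw, hG => by
    have e1 : t + 1 + j = (t + j) + 1 := by omega
    rw [e1] at hw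
    obtain ⟨Q, h1, h2, h3⟩ := hw
    obtain ⟨E, hE, hE1, hE2⟩ := split_set R 1 t (by omega)
    have ek : t + 1 + k' = (t + k') + 1 := by omega
    rw [ek]
    let Q' : Finset (ℕ × ℕ) := (Q.filter fun v => v.1 < N') ∪ E
    refine ⟨Q', ?_, ?_, fun ω => ?_⟩
    · refine (Finset.card_union_le _ _).trans ?_
      have h4 : (Q.filter fun v : ℕ × ℕ => v.1 < N').card ≤ Q.card := Finset.card_filter_le _ _
      omega
    · intro v hv
      rcases Finset.mem_union.1 hv with hv | hv
      · obtain ⟨hvQ, hvN⟩ := Finset.mem_filter.1 hv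
        exact ⟨(h2 v hvQ).1, hvN⟩
      · exact hRO v (hE hv)
    · refine stage hq t (answer σ₀ Q fun v => (τ v).getD (ω v)) (answer τ Q' ω) (R \ E) hE2
        (fun v hv => hRO v (Finset.sdiff_subset hv)) ?_ ?_ (h3 _) ?_
      · intro v b hvN hv
        unfold answer at hv ⊢
        by_cases hc : v ∈ Q ∧ σ₀ v = none
        · rw [if_pos hc] at hv
          have hv' : (τ v).getD (ω v) = b := Option.some.inj hv
          have hm : v ∈ Q' := Finset.mem_union_left _ (Finset.mem_filter.2 ⟨hc.1, hvN⟩)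
          cases ht : τ v with
          | none =>
            rw [ht] at hv'
            rw [if_pos ⟨hm, rfl⟩]
            exact congrArg some hv'
          | some c =>
            rw [ht] at hv'
            rw [if_neg (by simp)]
            exact congrArg some hv'
        · rw [if_neg hc] at hv
          have ht : τ v = some b := hag v b hvN hv
          rw [if_neg (by rw [ht]; simp), ht]
      · intro v hv
        by_cases hs : σ₀ v = none
        · have hvQ : v ∈ Q := by
            by_contra hn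
            apply hv
            unfold answer
            rw [if_neg fun h => hn h.1, hs]
          exact (h2 v hvQ).2.mono (ext_answer σ₀ Q _)
        · exact (hI v hs).mono (ext_answer σ₀ Q _)
      · intro σ₁ υ hσ₁ hυ hag1 hI1 hlw hv
        refine hG σ₁ υ ((ext_answer σ₀ Q _).trans hσ₁) ((ext_answer τ Q' ω).trans hυ) hag1 hI1 hlw
          fun v hvR => ?_
        by_cases hvE : v ∈ E
        · exact hυ.ne_none (answer_ne_none τ Q' ω (Finset.mem_union_right _ hvE))
        · exact hv v (Finset.mem_sdiff.2 ⟨hvR, hvE⟩)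

/-- Below the row `N` all vertices of the window are answered: the path goes on to level `N + G`. Induction on `g` (`g + g' = G`). -/
theorem down {N G i a : ℕ} {τ : State} (hc : ∀ g c, g < G → a ≤ c → c + i ≤ a + (N + g) → τ (N + g, c) ≠ none) :
    ∀ (g' g c : ℕ), g + g' = G → a ≤ c → c + i ≤ a + (N + g) → ∃ b, Reach τ g' (N + g) c b := by
  intro g'
  induction g' with
  | zero => exact fun g c _ _ _ => ⟨c, rfl⟩
  | succ g' ih =>
    intro g c hg ha hci
    obtain ⟨v, hv⟩ := Option.ne_none_iff_exists'.1 (hc g c (by omega) ha hci)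
    cases v with
    | false =>
      obtain ⟨b, hb⟩ := ih (g + 1) c (by omega) ha (by omega)
      exact ⟨b, Or.inl ⟨hv, hb⟩⟩
    | true =>
      obtain ⟨b, hb⟩ := ih (g + 1) (c + 1) (by omega) (by omega) (by omega)
      exact ⟨b, Or.inr ⟨hv, hb⟩⟩

/-- A path of `σ` below level `n` is a path of `τ`. Induction on `t`. -/
theorem reach_sub {σ τ : State} {n : ℕ} (h : ∀ (v : ℕ × ℕ) (b : Bool), v.1 < n → σ v = some b → τ v = some b) :
    ∀ {t i a b : ℕ}, i + t ≤ n → Reach σ t i a b → Reach τ t i a b := by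
  intro t
  induction t with
  | zero =>
    intro i a b _ hr
    exact hr
  | succ t ih =>
    intro i a b hi hr
    rcases hr with ⟨h1, h2⟩ | ⟨h1, h2⟩
    · exact Or.inl ⟨h (i, a) false (show i < n by omega) h1, ih (by omega) h2⟩
    · exact Or.inr ⟨h (i, a) true (show i < n by omega) h1, ih (by omega) h2⟩

/-- arithmetic: `(2 * q)` classes, `w ≤ H + q * j + G` -/
theorem cost {q H G j w : ℕ} (hq : 1 ≤ q) (hw : w ≤ H + q * j + G) : w / (2 * q) + 2 ≤ j / 2 + (H + G + 3) := by
  have h1 : w / (2 * q) < j / 2 + (H + G + 2) := by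
    rw [Nat.div_lt_iff_lt_mul (by omega)]
    have h2 : j ≤ 2 * (j / 2) + 1 := by omega
    have h3 : q * j ≤ q * (2 * (j / 2) + 1) := Nat.mul_le_mul_left q h2
    have h4 : H + G ≤ q * (H + G) := Nat.le_mul_of_pos_left _ hq
    nlinarith
  omega

end Pool.Agent.PyrQ
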