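import Pool.Agent.PyrQ.Hit

/-!
# Pyramid games with bounded look-ahead: the rates
-/

set_option autoImplicit false

open Filter Topology

namespace Pool.Agent.PyrQ

/-- THE CARPET. `C = 2 (H + G + 3)`, `M = 2 q` residue classes; the vertices `(N + g, c)`, `g < G`, in the reachable window with
`s ≤ g M + c % M` are answered; `C 2 ^ s ≤ j + C`. Induction on `s` (generalizing all).
`s = 0`: `stage` with `t = j`, `j = 0`, `R = ∅`, `k' = 0`; then `lw_zero` gives `Reach σ₁ N 0 0 b`, `Reach.split` at level `i` and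
`Reach.unique` (`Reach σ₁ i 0 0 a` by `Reach.mono`), `Reach.bound`, so `(N, b)` is in the window; `reach_sub`, `down` (with `g = 0`,
`g' = G`) and `Reach.comp`.
Step: `g = s / M`, `r = s % M`, `R` from `card_row (N + g) a (N + g - i) M r`; `t = j / 2 + (H + G + 3) ≤ j`, `cost` with
`w = N + g - i`; `stage` with `t` and `j = t + j'`, `k' = j'`; `next` for `σ₁`; induction with `j'`, `i'`, `a'`, `σ₁`, `υ`; a vertex
`(N + g', c)` of the new window lies in the old one; if `s + 1 ≤ g' M + c % M` it was answered before (`Ext.ne_none`), otherwise `g' = g` and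
`c % M = r`, so it is in `R`. -/
theorem lcarpet {H q q' N G : ℕ} (hq : 1 ≤ q) (hq' : q + 1 ≤ q') :
    ∀ (s j i a : ℕ) (σ₀ τ : State), 2 * (H + G + 3) * 2 ^ s ≤ j + 2 * (H + G + 3) → s ≤ G * (2 * q) →
      (∀ (v : ℕ × ℕ) (b : Bool), v.1 < N + G → σ₀ v = some b → τ v = some b) → Inv H σ₀ → LocalWins H q N j σ₀ →
      Reach σ₀ i 0 0 a → i ≤ N → N ≤ i + H + q * j →
      (∀ g c, g < G → a ≤ c → c + i ≤ a + (N + g) → s ≤ g * (2 * q) + c % (2 * q) → τ (N + g, c) ≠ none) →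
      Win q' (NT (N + G)) (Goal (N + G)) j τ
  | 0, j, i, a, σ₀, τ, _, _, hst, hinv, hw, hr, hiN, _, hc => by
    have h0 : j = j + 0 := rfl
    rw [h0]
    refine stage hq' (j := 0) (k' := 0) j σ₀ τ ∅ (by simp) (by simp) hst hinv hw ?_
    intro σ₁ υ h1 h2 h3 _ h5 _
    obtain ⟨b, hb⟩ := lw_zero.1 h5
    obtain ⟨x, hx⟩ := Nat.exists_eq_add_of_le hiN
    rw [hx] at hb
    obtain ⟨c, hc1, hc2⟩ := hb.split
    have hca : c = a := hc1.unique (hr.mono h1)
    subst hca
    have hbb := hc2.bound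
    obtain ⟨b', hb'⟩ := down (N := N) (G := G) (i := i) (a := c) (τ := υ)
      (fun g e hg h6 h7 => h2.ne_none (hc g e hg h6 h7 (Nat.zero_le _))) G 0 b (by omega) (by omega) (by omega)
    refine ⟨b', ?_⟩
    have h8 : Reach υ N 0 0 b := reach_sub h3 (by omega) (by rw [hx]; exact hb)
    exact h8.comp (by rw [zero_add]; exact hb')
  | s + 1, j, i, a, σ₀, τ, hj, hs, hst, hinv, hw, hr, hiN, hN, hc => by
    have h2s : 1 ≤ 2 ^ s := Nat.one_le_two_pow
    have h2s' : 2 ^ (s + 1) = 2 * 2 ^ s := by rw [pow_succ, mul_comm]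
    obtain ⟨C, hC⟩ : ∃ C, C = H + G + 3 := ⟨_, rfl⟩
    obtain ⟨X, hX⟩ : ∃ X, X = C * 2 ^ s := ⟨_, rfl⟩
    have hX1 : C ≤ X := by
      rw [hX]
      exact Nat.le_mul_of_pos_right C h2s
    have hj' : 4 * X ≤ j + 2 * C := by
      have e : 2 * (H + G + 3) * 2 ^ (s + 1) = 4 * X := by
        rw [hX, hC, h2s']
        ring
      rw [e, ← hC] at hj
      exact hj
    obtain ⟨t, ht⟩ : ∃ t, t = j / 2 + C := ⟨_, rfl⟩
    have htj : t ≤ j := by omega
    obtain ⟨j', hjj⟩ := Nat.exists_eq_add_of_le htj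
    have hM : 0 < 2 * q := by omega
    have hg : s / (2 * q) < G := Nat.div_lt_of_lt_mul (by rw [mul_comm (2 * q) G]; omega)
    have hbd := hr.bound
    obtain ⟨R, hR1, hR2, hR3⟩ := card_row (N + s / (2 * q)) a (N + s / (2 * q) - i) (2 * q) (s % (2 * q)) hM
    have hcost : (N + s / (2 * q) - i) / (2 * q) + 2 ≤ t := by
      rw [ht, hC]
      exact cost hq (by omega)
    rw [hjj]
    rw [hjj] at hw
    refine stage hq' (j := j') (k' := j') t σ₀ τ R (hR1.trans hcost) (fun v hv => ?_) hst hinv hw ?_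
    · obtain ⟨h1, h2, h3⟩ := hR2 v hv
      unfold NT
      generalize s / (2 * q) = g at h1 h3 hg
      omega
    · intro σ₁ υ h1 h2 h3 h4 h5 h6
      obtain ⟨i', a', e1, e2, e3, e4, e5, e6⟩ := next h4 h5 (hr.mono h1) hiN
      refine lcarpet hq hq' s j' i' a' σ₁ υ ?_ (by omega) h3 h4 h5 e3 e2 e6 ?_
      · have e : 2 * (H + G + 3) * 2 ^ s = 2 * X := by
          rw [hX, hC]
          ring
        rw [e, ← hC]
        omega
      · intro g c hgG h7 h8 h9
        by_cases h10 : s + 1 ≤ g * (2 * q) + c % (2 * q)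
        · exact h2.ne_none (hc g c hgG (by omega) (by omega) h10)
        · have h11 : s = c % (2 * q) + 2 * q * g := by
            have := mul_comm g (2 * q)
            omega
          have h12 : s / (2 * q) = g := by
            rw [h11, Nat.add_mul_div_left _ _ hM, Nat.div_eq_of_lt (Nat.mod_lt _ hM), zero_add]
          have h13 : s % (2 * q) = c % (2 * q) := by
            rw [h11, Nat.add_mul_mod_self_left, Nat.mod_mod]
          rw [h12, h13] at hR3
          exact h6 _ (hR3 c (by omega) (by omega) rfl)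

/-- `G` levels for free: `lcarpet` with `s = G (2 q)`, `i = a = 0`, empty states; `lev_of_win` with `I = 0`, `A = ∅`; `paulWins_iff`. -/
theorem lextra {H q q' N G K : ℕ} (hq : 1 ≤ q) (hq' : q + 1 ≤ q') (hw : LocalWins H q N K fun _ => none)
    (hK : 2 * (H + G + 3) * 2 ^ (G * (2 * q)) ≤ K + 2 * (H + G + 3)) : PaulWins (N + G) q' K fun _ => none := by
  have hN : N ≤ 0 + (∅ : Finset (ℕ × ℕ)).card + q * K := lev_of_win (I := 0) K _ ∅ (by simp) hw
  rw [Finset.card_empty] at hN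
  refine (paulWins_iff _ _ _ _).2 (lcarpet hq hq' (G * (2 * q)) K 0 0 (fun _ => none) (fun _ => none)
    hK le_rfl (fun v b _ h => h) (fun v hv => absurd rfl hv) hw rfl (Nat.zero_le _) (by omega) ?_)
  intro g c hg _ _ hs
  exfalso
  have h1 : c % (2 * q) < 2 * q := Nat.mod_lt _ (by omega)
  have h2 : (g + 1) * (2 * q) ≤ G * (2 * q) := Nat.mul_le_mul_right _ hg
  have h3 : (g + 1) * (2 * q) = g * (2 * q) + 2 * q := by ring
  omega

theorem lwins {H q : ℕ} (hH : 1 ≤ H) (hq : 1 ≤ q) (n : ℕ) : LocalWins H q n (localRounds H q n) fun _ => none :=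
  Nat.sInf_mem (s := {k : ℕ | LocalWins H q n k fun _ => none})
    ⟨n, lw_follow hH hq n 0 0 _ (by omega) le_rfl rfl⟩

theorem lrounds_le {H q n k : ℕ} (h : LocalWins H q n k fun _ => none) : localRounds H q n ≤ k := Nat.sInf_le h

theorem lrounds_le_self {H q : ℕ} (hH : 1 ≤ H) (hq : 1 ≤ q) (n : ℕ) : localRounds H q n ≤ n :=
  lrounds_le (lw_follow hH hq n 0 0 _ (by omega) le_rfl rfl)

theorem lrounds_mono {H q m n : ℕ} (hH : 1 ≤ H) (hq : 1 ≤ q) (h : m ≤ n) : localRounds H q m ≤ localRounds H q n :=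
  lrounds_le (lw_le h _ _ (lwins hH hq n))

theorem lrounds_look {H H' q : ℕ} (hH : 1 ≤ H) (h : H ≤ H') (hq : 1 ≤ q) (n : ℕ) : localRounds H' q n ≤ localRounds H q n :=
  lrounds_le (lw_look h _ _ (lwins hH hq n))

theorem lrounds_add {H q : ℕ} (hH : 1 ≤ H) (hq : 1 ≤ q) (m n : ℕ) :
    localRounds H q (m + n) ≤ localRounds H q m + localRounds H q n :=
  lrounds_le (lw_add (lwins hH hq m) (lwins hH hq n))

theorem le_lrounds {H q : ℕ} (hH : 1 ≤ H) (hq : 1 ≤ q) (n : ℕ) : n ≤ q * localRounds H q n := by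
  have h := lev_of_win (I := 0) (localRounds H q n) _ ∅ (by simp) (lwins hH hq n)
  simpa using h

theorem rounds_le_lrounds {H q : ℕ} (hH : 1 ≤ H) (hq : 1 ≤ q) (n : ℕ) : rounds q n ≤ localRounds H q n := by
  refine rounds_le ?_
  rw [paulWins_iff]
  exact restrict _ _ _ (fun _ _ => rfl) (lwins hH hq n)

theorem lrounds_le_rounds {H q n : ℕ} (hq : 1 ≤ q) (hn : n ≤ H) : localRounds H q n ≤ rounds q n := by
  refine lrounds_le (lw_of_win hn _ _ ?_)
  rw [← paulWins_iff]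
  exact wins_rounds hq n

/-- ALMOST SUPERADDITIVE. `m = 0` clear (`localRounds H q 0 = 0` by `lrounds_le_self`). `n + 1 < H`: `localRounds n ≤ n ≤ H` and
`lrounds_mono`. Otherwise let `s = localRounds m - 1` (if `localRounds m = 0` use `lrounds_mono`), `s + j = localRounds (m + n)`; Carole
wins the `m`-level game of `s` rounds (`Nat.notMem_of_lt_sInf`), so `hold` with `σ = fun _ => none` gives `τ` with `¬ Goal m τ`: the answers
lead at most to level `m - 1` (`Reach.split`), and `giveaway` with `I = m - 1`, `m + n = (m - 1) + H + (n + 1 - H)` gives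
`localRounds (n + 1 - H) ≤ j`; finally `localRounds n ≤ localRounds (n + 1 - H) + (H - 1)` by `lrounds_add`, `lrounds_le_self`. -/
theorem lsuper {H q : ℕ} (hH : 1 ≤ H) (hq : 1 ≤ q) (m n : ℕ) :
    localRounds H q m + localRounds H q n ≤ localRounds H q (m + n) + H := by
  have hmn : localRounds H q m ≤ localRounds H q (m + n) := lrounds_mono hH hq (Nat.le_add_right m n)
  by_cases hn : n + 1 < H
  · have h1 := lrounds_le_self (H := H) hH hq n
    omega
  · rcases Nat.eq_zero_or_pos (localRounds H q m) with h0 | hpos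
    · have h1 : localRounds H q n ≤ localRounds H q (m + n) := lrounds_mono hH hq (Nat.le_add_left n m)
      omega
    · have hm0 := lrounds_le_self (H := H) hH hq m
      obtain ⟨m', rfl⟩ : ∃ m', m = m' + 1 := ⟨m - 1, by omega⟩
      obtain ⟨s, hs⟩ : ∃ s, localRounds H q (m' + 1) = s + 1 := ⟨localRounds H q (m' + 1) - 1, by omega⟩
      obtain ⟨j, hj⟩ : ∃ j, localRounds H q (m' + 1 + n) = s + j := ⟨localRounds H q (m' + 1 + n) - s, by omega⟩
      have hnw : ¬ LocalWins H q (m' + 1) s fun _ => none := by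
        intro h
        have := lrounds_le h
        omega
      have hwin : LocalWins H q (m' + 1 + n) (s + j) fun _ => none := hj ▸ lwins hH hq (m' + 1 + n)
      have hinv : Inv H (fun _ => none) := fun v hv => absurd rfl hv
      obtain ⟨τ, hτi, hτg, hτw⟩ := hold (N := m' + 1 + n) (j := j) s (fun _ => none) hinv hnw hwin
      have hI : ∀ i a, Reach τ i 0 0 a → i ≤ m' := by
        intro i a hr
        by_contra hlt
        obtain ⟨t, ht⟩ : ∃ t, i = (m' + 1) + t := ⟨i - (m' + 1), by omega⟩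
        subst ht
        obtain ⟨c, hc, -⟩ := Reach.split hr
        exact hτg ⟨c, hc⟩
      have e : m' + H + (n + 1 - H) = m' + 1 + n := by omega
      have hg : LocalWins H q (n + 1 - H) j fun _ => none := giveaway (I := m') hτi hI (e ▸ hτw)
      have h2 := lrounds_le hg
      have h3 := lrounds_add (H := H) (q := q) hH hq (n + 1 - H) (H - 1)
      have e2 : (n + 1 - H) + (H - 1) = n := by omega
      rw [e2] at h3
      have h4 := lrounds_le_self (H := H) hH hq (H - 1)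
      omega

/-- THE RATE. As `exists_rate` of Extra.lean (copy it with `lrounds_add`, `le_lrounds` for the first three parts). The last part: `u n =
H - localRounds n` is subadditive by `lsuper`, `u n / n ≥ -1` (`lrounds_le_self`), `u n / n → - 1 / Λ` (limit unique,
`Subadditive.tendsto_lim`), so `- 1 / Λ ≤ u n / n` by `Subadditive.lim_le_div`. -/
theorem exists_local {H q : ℕ} (hH : 1 ≤ H) (hq : 1 ≤ q) : ∃ Λ : ℝ, 0 < Λ ∧
    Tendsto (fun n : ℕ => (n : ℝ) / localRounds H q n) atTop (𝓝 Λ) ∧ (∀ n : ℕ, 1 ≤ n → (n : ℝ) / localRounds H q n ≤ Λ) ∧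
    ∀ n : ℕ, (localRounds H q n : ℝ) ≤ n / Λ + H := by
  have hq0 : (0 : ℝ) < q := by exact_mod_cast hq
  have hsub : Subadditive fun n : ℕ => (localRounds H q n : ℝ) := fun m n => by
    show (localRounds H q (m + n) : ℝ) ≤ localRounds H q m + localRounds H q n
    exact_mod_cast lrounds_add hH hq m n
  have hbdd : BddBelow (Set.range fun n : ℕ => (localRounds H q n : ℝ) / n) := by
    refine ⟨0, ?_⟩
    rintro _ ⟨n, rfl⟩
    positivity
  have hlow : ∀ n : ℕ, 1 ≤ n → (1 : ℝ) / q ≤ (localRounds H q n : ℝ) / n := by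
    intro n hn
    have hn0 : (0 : ℝ) < n := by exact_mod_cast hn
    rw [div_le_div_iff₀ hq0 hn0, one_mul, mul_comm]
    exact_mod_cast le_lrounds hH hq n
  have hlim := hsub.tendsto_lim hbdd
  have hpos : (1 : ℝ) / q ≤ hsub.lim := ge_of_tendsto hlim (Filter.eventually_atTop.2 ⟨1, hlow⟩)
  have hpos' : 0 < hsub.lim := lt_of_lt_of_le (by positivity) hpos
  have hH0 : (0 : ℝ) ≤ H := Nat.cast_nonneg H
  have hu : Subadditive fun n : ℕ => (H : ℝ) - localRounds H q n := fun m n => by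
    show (H : ℝ) - localRounds H q (m + n) ≤ (H - localRounds H q m) + (H - localRounds H q n)
    have h : (localRounds H q m : ℝ) + localRounds H q n ≤ localRounds H q (m + n) + H := by
      exact_mod_cast lsuper hH hq m n
    linarith
  have hub : BddBelow (Set.range fun n : ℕ => ((H : ℝ) - localRounds H q n) / n) := by
    refine ⟨-1, ?_⟩
    rintro _ ⟨n, rfl⟩
    show (-1 : ℝ) ≤ ((H : ℝ) - localRounds H q n) / n
    rcases Nat.eq_zero_or_pos n with rfl | hn
    · simp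
    · have hn0 : (0 : ℝ) < n := by exact_mod_cast hn
      have h : (localRounds H q n : ℝ) ≤ n := by exact_mod_cast lrounds_le_self hH hq n
      rw [le_div_iff₀ hn0]
      linarith
  have hul := hu.tendsto_lim hub
  have hul2 : Tendsto (fun n : ℕ => ((H : ℝ) - localRounds H q n) / n) atTop
      (𝓝 (0 - hsub.lim)) := by
    have h1 : Tendsto (fun n : ℕ => (H : ℝ) / n) atTop (𝓝 0) :=
      tendsto_const_div_atTop_nhds_zero_nat _
    refine (h1.sub hlim).congr fun n => ?_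
    rw [sub_div]
  have hulim := tendsto_nhds_unique hul hul2
  refine ⟨hsub.lim⁻¹, inv_pos.2 hpos', ?_, fun n hn => ?_, fun n => ?_⟩
  · refine (hlim.inv₀ hpos'.ne').congr fun n => ?_
    rw [inv_div]
  · have hn0 : (0 : ℝ) < n := by exact_mod_cast hn
    have h1 : hsub.lim ≤ (localRounds H q n : ℝ) / n := hsub.lim_le_div hbdd (by omega)
    rw [← inv_div]
    exact inv_anti₀ hpos' h1
  · rw [div_inv_eq_mul]
    rcases Nat.eq_zero_or_pos n with rfl | hn
    · have h : localRounds H q 0 = 0 := Nat.le_zero.1 (lrounds_le_self hH hq 0)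
      rw [h]
      simp
    · have hn0 : (0 : ℝ) < n := by exact_mod_cast hn
      have h1 : hu.lim ≤ ((H : ℝ) - localRounds H q n) / n := hu.lim_le_div hub (by omega)
      rw [hulim, le_div_iff₀ hn0] at h1
      linarith

/-- `2 q (H + G + 3) 4 ^ (q G) + H ≤ 4 ^ ((q + 1) G + 1)` for `G = q H + 1` -/
theorem gap_num {q H : ℕ} (hq : 1 ≤ q) (hH : 1 ≤ H) :
    q * (2 * (H + (q * H + 1) + 3) * 2 ^ ((q * H + 1) * (2 * q))) + H ≤ 4 ^ ((q + 1) * (q * H + 1) + 1) := by
  obtain ⟨x, hx⟩ : ∃ x, x = q * H := ⟨_, rfl⟩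
  have e1 : 2 ^ ((q * H + 1) * (2 * q)) = 4 ^ (q * (q * H + 1)) := by
    have : (4 : ℕ) = 2 ^ 2 := by norm_num
    rw [this, ← pow_mul]
    congr 1
    ring
  have e2 : 4 ^ ((q + 1) * (q * H + 1) + 1) = 16 * 4 ^ (q * H) * 4 ^ (q * (q * H + 1)) := by
    have : (q + 1) * (q * H + 1) + 1 = q * (q * H + 1) + (q * H + 2) := by ring
    rw [this, pow_add, pow_add]
    ring
  rw [e1, e2]
  obtain ⟨P, hP⟩ : ∃ P, P = 4 ^ (q * (q * H + 1)) := ⟨_, rfl⟩
  have hP1 : 1 ≤ P := by
    rw [hP]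
    exact Nat.one_le_pow _ _ (by norm_num)
  rw [← hP]
  have h1 : q ≤ x := by
    rw [hx]
    exact Nat.le_mul_of_pos_right q hH
  have h2 : H ≤ x := by
    rw [hx]
    exact Nat.le_mul_of_pos_left H hq
  have h3 : x ≤ 4 ^ x := (Nat.lt_pow_self (by norm_num)).le
  have h4 : x * x ≤ 4 ^ x := by
    have h5 : x ≤ 2 ^ x := (Nat.lt_pow_self (by norm_num)).le
    calc x * x ≤ 2 ^ x * 2 ^ x := Nat.mul_le_mul h5 h5
      _ = 4 ^ x := by
        rw [← mul_pow]
        norm_num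
  have h6 : q * x ≤ x * x := Nat.mul_le_mul_right x h1
  have h7 : q * (2 * (H + (q * H + 1) + 3)) + H ≤ 16 * 4 ^ (q * H) := by
    rw [← hx]
    have e : q * (2 * (H + (x + 1) + 3)) = 2 * x + 2 * (q * x) + 8 * q := by
      rw [hx]
      ring
    rw [e]
    omega
  calc q * (2 * (H + (q * H + 1) + 3) * P) + H ≤ q * (2 * (H + (q * H + 1) + 3) * P) + H * P := by
        have := Nat.le_mul_of_pos_right H hP1
        omega
    _ = (q * (2 * (H + (q * H + 1) + 3)) + H) * P := by ring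
    _ ≤ 16 * 4 ^ (q * H) * P := Nat.mul_le_mul_right P h7

/-- ONE MORE QUESTION BEATS EVERY LOOK-AHEAD. `1 ≤ Λ ≤ q` (limit of `n / localRounds`). `G = q H + 1`, `M = 2 (H + G + 3) 2 ^ (G (2 q))`,
`N = q M`: by `le_lrounds` `M ≤ localRounds H q N`, so `lextra` and `rounds_le`: `rounds q' (N + G) ≤
localRounds H q N ≤ N / Λ + H`, hence `L' ≥ (N + G) / rounds q' (N + G) ≥ (N + G) / (N / Λ + H) ≥ Λ + 1 / (N + H)` as `G ≥ Λ H + 1`. -/
theorem local_gap {H q q' : ℕ} (hH : 1 ≤ H) (hq : 1 ≤ q) (hq' : q + 1 ≤ q') {Λ L' : ℝ}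
    (h1 : Tendsto (fun n : ℕ => (n : ℝ) / localRounds H q n) atTop (𝓝 Λ))
    (h2 : ∀ n : ℕ, (localRounds H q n : ℝ) ≤ n / Λ + H)
    (h3 : ∀ n : ℕ, 1 ≤ n → (n : ℝ) / rounds q' n ≤ L') : Λ + (1 / 4) ^ ((q + 1) * (q * H + 1) + 1) ≤ L' := by
  have hΛq : Λ ≤ q := by
    refine le_of_tendsto' h1 fun n => ?_
    refine div_le_of_le_mul₀ (Nat.cast_nonneg _) (Nat.cast_nonneg _) ?_
    exact_mod_cast le_lrounds hH hq n
  have hΛ1 : 1 ≤ Λ := by
    refine ge_of_tendsto h1 (Filter.eventually_atTop.2 ⟨1, fun n hn => ?_⟩)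
    have hp : 0 < localRounds H q n := by
      have h := le_lrounds hH hq n
      by_contra h4
      have h5 : localRounds H q n = 0 := by omega
      rw [h5] at h
      omega
    have hp' : (0 : ℝ) < localRounds H q n := by exact_mod_cast hp
    rw [le_div_iff₀ hp', one_mul]
    exact_mod_cast lrounds_le_self hH hq n
  have h0 : 0 < Λ := lt_of_lt_of_le one_pos hΛ1
  obtain ⟨G, hG⟩ : ∃ G : ℕ, G = q * H + 1 := ⟨_, rfl⟩
  obtain ⟨M, hM⟩ : ∃ M : ℕ, M = 2 * (H + G + 3) * 2 ^ (G * (2 * q)) := ⟨_, rfl⟩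
  have hf : M ≤ localRounds H q (q * M) := by
    have h := le_lrounds hH hq (q * M)
    exact Nat.le_of_mul_le_mul_left h hq
  have hw : PaulWins (q * M + G) q' (localRounds H q (q * M)) fun _ => none :=
    lextra hq hq' (lwins hH hq (q * M)) (by rw [← hM]; omega)
  have hr : rounds q' (q * M + G) ≤ localRounds H q (q * M) := rounds_le hw
  have hq1 : 1 ≤ q' := by omega
  have hR0 : 0 < rounds q' (q * M + G) := by
    have h := le_rounds hq1 (q * M + G)
    by_contra h0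
    have h4 : rounds q' (q * M + G) = 0 := by omega
    rw [h4] at h
    omega
  have hR : (0 : ℝ) < rounds q' (q * M + G) := by exact_mod_cast hR0
  refine le_trans ?_ (h3 (q * M + G) (by omega))
  rw [le_div_iff₀ hR]
  have hr1 : (rounds q' (q * M + G) : ℝ) ≤ localRounds H q (q * M) := by exact_mod_cast hr
  have hr2 := mul_le_mul_of_nonneg_left (hr1.trans (h2 (q * M))) h0.le
  have hr3 : Λ * (((q * M : ℕ) : ℝ) / Λ + H) = ((q * M : ℕ) : ℝ) + Λ * H := by
    rw [mul_add, mul_div_cancel₀ _ h0.ne']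
  rw [hr3] at hr2
  have hr4 : Λ * H ≤ q * H := mul_le_mul_of_nonneg_right hΛq (Nat.cast_nonneg H)
  have hr5 : ((q * M + G : ℕ) : ℝ) = ((q * M : ℕ) : ℝ) + (q * H + 1) := by
    rw [hG]
    push_cast
    ring
  have hr6 : rounds q' (q * M + G) ≤ 4 ^ ((q + 1) * (q * H + 1) + 1) := by
    have h5 : localRounds H q (q * M) ≤ q * M + H := by
      exact (lrounds_le_self hH hq (q * M)).trans (Nat.le_add_right _ _)
    have h6 : q * M + H ≤ 4 ^ ((q + 1) * (q * H + 1) + 1) := by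
      rw [hM, hG]
      exact gap_num hq hH
    omega
  have hr7 : ((1 : ℝ) / 4) ^ ((q + 1) * (q * H + 1) + 1) * rounds q' (q * M + G) ≤ 1 := by
    rw [div_pow, one_pow, one_div, inv_mul_le_iff₀ (by positivity), mul_one]
    exact_mod_cast hr6
  rw [hr5, add_mul]
  linarith

/-- `n ≤ Λ k + (q + H - 1) h` for every strategy -/
theorem hit_bound {H q n k h : ℕ} (hH : 1 ≤ H) (hq : 1 ≤ q) {Λ : ℝ} (h0 : 0 < Λ)
    (hl : Tendsto (fun n : ℕ => (n : ℝ) / localRounds H q n) atTop (𝓝 Λ))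
    (h1 : ∀ n : ℕ, 1 ≤ n → (n : ℝ) / localRounds H q n ≤ Λ) (hw : HitWins H q n h k ∅ fun _ => none) :
    (n : ℝ) ≤ Λ * k + (q + H - 1) * h := by
  have hΛq : Λ ≤ q := by
    refine le_of_tendsto' hl fun n => ?_
    refine div_le_of_le_mul₀ (Nat.cast_nonneg _) (Nat.cast_nonneg _) ?_
    exact_mod_cast le_lrounds hH hq n
  obtain ⟨x, hx⟩ : ∃ x, H = x + 1 := ⟨H - 1, by omega⟩
  have hx' : (H : ℝ) = x + 1 := by rw [hx]; push_cast; ring
  have h3' : 0 ≤ Λ * k := mul_nonneg h0.le (Nat.cast_nonneg k)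
  have h4' : (0 : ℝ) ≤ q * h := by positivity
  by_cases hn : n ≤ x * h
  · have h2 : (n : ℝ) ≤ x * h := by exact_mod_cast hn
    rw [hx']
    nlinarith
  · obtain ⟨m, hm⟩ := Nat.exists_eq_add_of_le (not_le.1 hn).le
    have hm1 : 1 ≤ m := by omega
    have hxH : H - 1 = x := by omega
    have h2 := lrounds_le (hit_local (m := m) hH hq (by rw [hxH]; omega) hw)
    have h3 := h1 m hm1
    have h4 : 0 < localRounds H q m := by
      have h := le_lrounds hH hq m
      by_contra h5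
      have h6 : localRounds H q m = 0 := by omega
      rw [h6] at h
      omega
    have h4' : (0 : ℝ) < localRounds H q m := by exact_mod_cast h4
    rw [div_le_iff₀ h4'] at h3
    have h5 : Λ * localRounds H q m ≤ Λ * ((k : ℝ) + h) := mul_le_mul_of_nonneg_left (by exact_mod_cast h2) h0.le
    have h6 : (n : ℝ) = x * h + m := by
      rw [hm]
      push_cast
      ring
    have h7 : Λ * h ≤ q * h := mul_le_mul_of_nonneg_right hΛq (Nat.cast_nonneg h)
    rw [h6, hx']
    nlinarith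

/-- THE THEOREM. `main` gives `L`, `L'` and the clause with `(1 / 4) ^ (s + 1)`; `Λ H` is chosen from `exists_local` for `1 ≤ H` (0 for
`H = 0`). Limits are unique (`tendsto_nhds_unique`), so `exists_rate` gives `n / rounds q n ≤ L`. `Λ H ≤ Λ H'`: `lrounds_look`,
`le_of_tendsto_of_tendsto'`. `Λ H ≤ L`: `rounds_le_lrounds`. `n / rounds q n ≤ Λ H` for `n ≤ H`: `lrounds_le_rounds`. `Λ → L`:
`tendsto_order.2`: for `c < L` some `n ≥ 1` has `c < n / rounds q n ≤ Λ H` for all `H ≥ n`. the last inequality: `local_gap`. -/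
theorem main_local (q r : ℕ) (hq : 1 ≤ q) (hr : 1 ≤ r) : ∃ (L L' : ℝ) (Λ : ℕ → ℝ),
    Tendsto (fun n : ℕ => (n : ℝ) / rounds q n) atTop (𝓝 L) ∧
    Tendsto (fun n : ℕ => (n : ℝ) / rounds (q + r) n) atTop (𝓝 L') ∧
    (∀ n s : ℕ, 1 ≤ n → q ≤ s * r → ((n : ℝ) + (1 / 4) ^ (s + 1)) / rounds q n ≤ L') ∧
    (∀ H : ℕ, 1 ≤ H → Tendsto (fun n : ℕ => (n : ℝ) / localRounds H q n) atTop (𝓝 (Λ H)) ∧
      (∀ n : ℕ, 1 ≤ n → n ≤ H → (n : ℝ) / rounds q n ≤ Λ H) ∧ Λ H ≤ Λ (H + 1) ∧ Λ H ≤ L ∧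
      Λ H + (1 / 4) ^ ((q + 1) * (q * H + 1) + 1) ≤ L') ∧
    Tendsto Λ atTop (𝓝 L) ∧
    ∀ H n k h : ℕ, 1 ≤ H → HitWins H q n h k ∅ (fun _ => none) →
      (n : ℝ) + (1 / 4) ^ ((q + 1) * (q * H + 1) + 1) * k ≤ L' * k + (q + H - 1) * h := by
  classical
  obtain ⟨L, L', h1, h2, h3, -⟩ := main q r hq hr
  obtain ⟨L0, -, hL0, -⟩ := exists_rate hq
  obtain ⟨L1, -, hL1, hL1b⟩ := exists_rate (q := q + r) (by omega)
  have hLe' : L1 = L' := tendsto_nhds_unique hL1 h2
  rw [hLe'] at hL1b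
  have hex : ∀ H : ℕ, ∃ Λ : ℝ, 1 ≤ H → (0 < Λ ∧
      Tendsto (fun n : ℕ => (n : ℝ) / localRounds H q n) atTop (𝓝 Λ) ∧
      (∀ n : ℕ, 1 ≤ n → (n : ℝ) / localRounds H q n ≤ Λ) ∧
      ∀ n : ℕ, (localRounds H q n : ℝ) ≤ n / Λ + H) := by
    intro H
    by_cases hH : 1 ≤ H
    · obtain ⟨Λ, h⟩ := exists_local hH hq
      exact ⟨Λ, fun _ => h⟩
    · exact ⟨0, fun h => absurd h hH⟩
  choose Λ hΛ using hex
  have lpos : ∀ H n : ℕ, 1 ≤ H → 1 ≤ n → (0 : ℝ) < localRounds H q n := by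
    intro H n hH hn
    have h := le_lrounds hH hq n
    have : 0 < localRounds H q n := by
      rcases Nat.eq_zero_or_pos (localRounds H q n) with h0 | h0
      · rw [h0, mul_zero] at h; omega
      · exact h0
    exact_mod_cast this
  have rpos : ∀ n : ℕ, 1 ≤ n → (0 : ℝ) < rounds q n := by
    intro n hn
    have h := le_rounds hq n
    have : 0 < rounds q n := by
      rcases Nat.eq_zero_or_pos (rounds q n) with h0 | h0
      · rw [h0, mul_zero] at h; omega
      · exact h0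
    exact_mod_cast this
  have hmono : ∀ H : ℕ, 1 ≤ H → Λ H ≤ Λ (H + 1) := by
    intro H hH
    refine le_of_tendsto_of_tendsto' (hΛ H hH).2.1 (hΛ (H + 1) (by omega)).2.1 fun n => ?_
    rcases Nat.eq_zero_or_pos n with h0 | h0
    · subst h0; simp
    · refine div_le_div_of_nonneg_left (Nat.cast_nonneg n) (lpos (H + 1) n (by omega) h0) ?_
      exact_mod_cast lrounds_look hH (Nat.le_succ H) hq n
  have hle : ∀ H : ℕ, 1 ≤ H → Λ H ≤ L := by
    intro H hH
    refine le_of_tendsto_of_tendsto' (hΛ H hH).2.1 h1 fun n => ?_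
    rcases Nat.eq_zero_or_pos n with h0 | h0
    · subst h0; simp
    · refine div_le_div_of_nonneg_left (Nat.cast_nonneg n) (rpos n h0) ?_
      exact_mod_cast rounds_le_lrounds hH hq n
  have hge : ∀ H : ℕ, 1 ≤ H → ∀ n : ℕ, 1 ≤ n → n ≤ H → (n : ℝ) / rounds q n ≤ Λ H := by
    intro H hH n hn hnH
    refine le_trans ?_ ((hΛ H hH).2.2.1 n hn)
    refine div_le_div_of_nonneg_left (Nat.cast_nonneg n) (lpos H n hH hn) ?_
    exact_mod_cast lrounds_le_rounds hq hnH
  have hlt : ∀ H : ℕ, 1 ≤ H → Λ H + (1 / 4) ^ ((q + 1) * (q * H + 1) + 1) ≤ L' := by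
    intro H hH
    exact local_gap hH hq (by omega : q + 1 ≤ q + r) (hΛ H hH).2.1 (hΛ H hH).2.2.2 hL1b
  refine ⟨L, L', Λ, h1, h2, h3, fun H hH => ⟨(hΛ H hH).2.1, hge H hH, hmono H hH, hle H hH,
    hlt H hH⟩, ?_, ?_⟩
  swap
  · intro H n k h hH hw
    have h4 := hit_bound hH hq (hΛ H hH).1 (hΛ H hH).2.1 (hΛ H hH).2.2.1 hw
    have h5 := mul_le_mul_of_nonneg_right (hlt H hH) (Nat.cast_nonneg (α := ℝ) k)
    rw [add_mul] at h5
    linarith
  rw [tendsto_order]
  constructor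
  · intro c hc
    have hev := (tendsto_order.1 h1).1 c hc
    obtain ⟨n, hn1, hn2⟩ := (hev.and (eventually_ge_atTop 1)).exists
    filter_upwards [eventually_ge_atTop n] with H hH
    exact lt_of_lt_of_le hn1 (hge H (le_trans hn2 hH) n hn2 hH)
  · intro c hc
    filter_upwards [eventually_ge_atTop 1] with H hH
    exact lt_of_le_of_lt (hle H hH) hc

end Pool.Agent.PyrQ
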